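import Pool.Agent.PowB.Defs

/-!
The character `n ↦ J(-d | n) ψ(n)`.
-/

set_option autoImplicit false

namespace Pool.Agent.PowB

open Pool.Agent.PowF Pool.Agent.CycSyl NumberField NumberTheorySymbols

theorem exists_odd_char {p : ℕ} (hp : p.Prime) (hp2 : p ≠ 2) :
    ∃ ψ : DirichletCharacter ℂ p, ψ (-1) = -1 := by
  have : Fact p.Prime := ⟨hp⟩
  have : NeZero p := ⟨hp.ne_zero⟩
  have h2 : Fact (2 < p) := ⟨lt_of_le_of_ne hp.two_le (Ne.symm hp2)⟩
  have hne : (-1 : ZMod p) ≠ 1 := ZMod.neg_one_ne_one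
  obtain ⟨ψ, hψ⟩ := DirichletCharacter.exists_apply_ne_one_of_hasEnoughRootsOfUnity ℂ hne
  refine ⟨ψ, ?_⟩
  have h1 : ψ (-1) * ψ (-1) = 1 := by
    rw [← map_mul]; simp
  have h3 : (ψ (-1) - 1) * (ψ (-1) + 1) = 0 := by linear_combination h1
  rcases mul_eq_zero.1 h3 with h | h
  · exact absurd (sub_eq_zero.1 h) hψ
  · exact eq_neg_of_add_eq_zero_left h

theorem chd_apply (p d : ℕ) (ψ : DirichletCharacter ℂ p) (n : ℕ) :
    chd p d ψ n = if n % 2 = 1 then ((J(-(d : ℤ) | n) : ℤ) : ℂ) * ψ (n : ZMod p) else 0 := rfl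

theorem chd_norm {p d : ℕ} (hp : p.Prime) (ψ : DirichletCharacter ℂ p) (n : ℕ) :
    ‖chd p d ψ n‖ ≤ 1 := by
  have : NeZero p := ⟨hp.ne_zero⟩
  rw [chd_apply]
  by_cases h : n % 2 = 1
  · rw [if_pos h, norm_mul]
    have h1 : ‖((J(-(d : ℤ) | n) : ℤ) : ℂ)‖ ≤ 1 := by
      rcases jacobiSym.trichotomy (-(d : ℤ)) n with h0 | h0 | h0 <;> rw [h0] <;> simp
    have h2 := ψ.norm_le_one (n : ZMod p)
    calc ‖((J(-(d : ℤ) | n) : ℤ) : ℂ)‖ * ‖ψ (n : ZMod p)‖ ≤ 1 * 1 :=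
          mul_le_mul h1 h2 (norm_nonneg _) zero_le_one
      _ = 1 := one_mul 1
  · rw [if_neg h, norm_zero]; exact zero_le_one

theorem chd_mod {p d : ℕ} (ψ : DirichletCharacter ℂ p) (n : ℕ) :
    chd p d ψ (n % (4 * d * p)) = chd p d ψ n := by
  have h2 : (n % (4 * d * p)) % 2 = n % 2 := Nat.mod_mod_of_dvd _ ⟨2 * d * p, by ring⟩
  rw [chd_apply, chd_apply, h2]
  by_cases h : n % 2 = 1
  · rw [if_pos h, if_pos h]
    have ho : Odd n := Nat.odd_iff.2 h
    have ho' : Odd (n % (4 * d * p)) := Nat.odd_iff.2 (by rw [h2, h])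
    have h4 : (-(d : ℤ)).natAbs = d := by simp
    have h3 : J(-(d : ℤ) | (n % (4 * d * p))) = J(-(d : ℤ) | n) := by
      rw [jacobiSym.mod_right _ ho', jacobiSym.mod_right _ ho, h4,
        Nat.mod_mod_of_dvd _ (dvd_mul_right (4 * d) p)]
    have h5 : ((n % (4 * d * p) : ℕ) : ZMod p) = (n : ZMod p) := by
      rw [ZMod.natCast_eq_natCast_iff]
      exact (Nat.mod_modEq n (4 * d * p)).of_mul_left (4 * d)
    rw [h3, h5]
  · rw [if_neg h, if_neg h]

theorem exists_neg {p d : ℕ} (hp : p.Prime) (hp2 : p ≠ 2) (hd : 0 < d) (hpd : ¬ p ∣ d)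
    (ψ : DirichletCharacter ℂ p) :
    ∃ n₀ : ℕ, n₀.Coprime (4 * d * p) ∧ chd p d ψ n₀ = -1 := by
  have hcop : (4 * d).Coprime p := by
    apply Nat.Coprime.mul_left
    · have : Nat.Coprime 2 p := (Nat.coprime_primes Nat.prime_two hp).2 (Ne.symm hp2)
      exact this.pow_left 2
    · exact ((hp.coprime_iff_not_dvd).2 hpd).symm
  obtain ⟨n₀, h1, h2⟩ := Nat.chineseRemainder hcop (4 * d - 1) 1
  have h3 : n₀ % (4 * d) = 4 * d - 1 := by
    have : n₀ % (4 * d) = (4 * d - 1) % (4 * d) := h1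
    rw [this]; exact Nat.mod_eq_of_lt (by omega)
  have hodd : n₀ % 2 = 1 := by
    have h4 : (n₀ % (4 * d)) % 2 = n₀ % 2 := Nat.mod_mod_of_dvd _ ⟨2 * d, by ring⟩
    rw [← h4, h3]; omega
  refine ⟨n₀, ?_, ?_⟩
  · apply Nat.Coprime.mul_right
    · have h5 : Nat.gcd n₀ (4 * d) = Nat.gcd (4 * d - 1) (4 * d) := Nat.ModEq.gcd_eq h1
      rw [Nat.Coprime, h5]
      have h6 := Nat.gcd_dvd_left (4 * d - 1) (4 * d)
      have h7 := Nat.gcd_dvd_right (4 * d - 1) (4 * d)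
      have h8 := Nat.dvd_sub h7 h6
      have h9 : 4 * d - (4 * d - 1) = 1 := by omega
      rw [h9] at h8
      exact Nat.dvd_one.1 h8
    · have h5 : Nat.gcd n₀ p = Nat.gcd 1 p := Nat.ModEq.gcd_eq h2
      rw [Nat.Coprime, h5]; simp
  · rw [chd_apply, if_pos hodd, jacobi_neg hd h3]
    have h5 : (n₀ : ZMod p) = 1 := by
      have := (ZMod.natCast_eq_natCast_iff n₀ 1 p).2 h2
      rw [this]; simp
    rw [h5, map_one]
    push_cast
    ring

theorem chd_complete {p d : ℕ} (hp : p.Prime) (hp2 : p ≠ 2) (hd : 0 < d) (hpd : ¬ p ∣ d)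
    (ψ : DirichletCharacter ℂ p) :
    ∑ n ∈ Finset.range (4 * d * p), chd p d ψ n = 0 := by
  have hM : 0 < 4 * d * p := by have := hp.pos; positivity
  have hne : NeZero (4 * d * p) := ⟨hM.ne'⟩
  obtain ⟨n₀, hc, hn⟩ := exists_neg hp hp2 hd hpd ψ
  have hmaps : ∀ n ∈ Finset.range (4 * d * p), (n₀ * n) % (4 * d * p) ∈
      Finset.range (4 * d * p) := fun n _ => Finset.mem_range.2 (Nat.mod_lt _ hM)
  have hinj : Set.InjOn (fun n => (n₀ * n) % (4 * d * p))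
      (Finset.range (4 * d * p) : Set ℕ) := by
    intro a ha b hb hab
    have ha' := Finset.mem_range.1 (Finset.mem_coe.1 ha)
    have hb' := Finset.mem_range.1 (Finset.mem_coe.1 hb)
    have h1 : n₀ * a ≡ n₀ * b [MOD 4 * d * p] := hab
    have h2 : a ≡ b [MOD 4 * d * p] := Nat.ModEq.cancel_left_of_coprime (Nat.coprime_comm.1 hc) h1
    have h3 : a % (4 * d * p) = b % (4 * d * p) := h2
    rwa [Nat.mod_eq_of_lt ha', Nat.mod_eq_of_lt hb'] at h3
  have hperm : ∑ n ∈ Finset.range (4 * d * p), chd p d ψ ((n₀ * n) % (4 * d * p)) =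
      ∑ n ∈ Finset.range (4 * d * p), chd p d ψ n :=
    Finset.sum_nbij (fun n => (n₀ * n) % (4 * d * p)) hmaps hinj
      (Finset.surjOn_of_injOn_of_card_le _ hmaps hinj le_rfl) (fun n _ => rfl)
  have h1 : ∑ n ∈ Finset.range (4 * d * p), chd p d ψ ((n₀ * n) % (4 * d * p)) =
      - ∑ n ∈ Finset.range (4 * d * p), chd p d ψ n := by
    rw [← Finset.sum_neg_distrib]
    apply Finset.sum_congr rfl
    intro n _
    rw [chd_mod, map_mul, hn]
    ring
  rw [h1] at hperm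
  have h2 : (2 : ℂ) * ∑ n ∈ Finset.range (4 * d * p), chd p d ψ n = 0 := by
    linear_combination -hperm
  exact (mul_eq_zero.1 h2).resolve_left two_ne_zero

theorem chd_partial {p d : ℕ} (hp : p.Prime) (hp2 : p ≠ 2) (hd : 0 < d) (hpd : ¬ p ∣ d)
    (ψ : DirichletCharacter ℂ p) (N : ℕ) :
    ‖∑ n ∈ Finset.range N, chd p d ψ n‖ ≤ ((4 * d * p : ℕ) : ℝ) := by
  have hM : 0 < 4 * d * p := by have := hp.pos; positivity
  induction N using Nat.strong_induction_on with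
  | _ N ih =>
    rcases Nat.lt_or_ge N (4 * d * p) with h | h
    · calc ‖∑ n ∈ Finset.range N, chd p d ψ n‖ ≤ ∑ n ∈ Finset.range N, ‖chd p d ψ n‖ :=
            norm_sum_le _ _
        _ ≤ ∑ n ∈ Finset.range N, (1 : ℝ) := Finset.sum_le_sum (fun n _ => chd_norm hp ψ n)
        _ = N := by simp
        _ ≤ ((4 * d * p : ℕ) : ℝ) := by exact_mod_cast h.le
    · obtain ⟨k, rfl⟩ := Nat.exists_eq_add_of_le h
      rw [Finset.sum_range_add, chd_complete hp hp2 hd hpd, zero_add]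
      have h1 : ∑ x ∈ Finset.range k, chd p d ψ (4 * d * p + x) =
          ∑ x ∈ Finset.range k, chd p d ψ x := by
        apply Finset.sum_congr rfl
        intro x _
        rw [← chd_mod, Nat.add_mod_left, chd_mod]
      rw [h1]
      exact ih k (by omega)

end Pool.Agent.PowB
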