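import Pool.Agent.PowF.MainIneq

/-!
Definitions for part (B): weights of primes.
-/

set_option autoImplicit false

namespace Pool.Agent.PowB

open Pool.Agent.PowF Pool.Agent.CycSyl NumberField NumberTheorySymbols

/-- the weight `(1 + Re ψ(r)) / 2` of an allowed prime `r` -/
noncomputable def fw (p W : ℕ) (ψ : DirichletCharacter ℂ p) (r : ℕ) : ℝ := by
  classical
  exact if Al p W r then (1 + (ψ (r : ZMod p)).re) / 2 else 0

/-- the completely multiplicative function `n ↦ J(-d | n) ψ(n)` on odd numbers -/
noncomputable def chd (p d : ℕ) (ψ : DirichletCharacter ℂ p) : ℕ →*₀ ℂ where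
  toFun n := if n % 2 = 1 then ((J(-(d : ℤ) | n) : ℤ) : ℂ) * ψ (n : ZMod p) else 0
  map_zero' := by simp
  map_one' := by simp
  map_mul' a b := by
    by_cases ha : a % 2 = 1
    · by_cases hb : b % 2 = 1
      · have hab : (a * b) % 2 = 1 := by rw [Nat.mul_mod, ha, hb]
        rw [if_pos ha, if_pos hb, if_pos hab]
        have : NeZero a := ⟨by rintro rfl; simp at ha⟩
        have : NeZero b := ⟨by rintro rfl; simp at hb⟩
        rw [jacobiSym.mul_right, Nat.cast_mul, map_mul]
        push_cast
        ring
      · have hab : ¬ (a * b) % 2 = 1 := by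
          rw [Nat.mul_mod]
          rcases Nat.mod_two_eq_zero_or_one b with h | h
          · rw [h]; simp
          · exact absurd h hb
        rw [if_neg hb, if_neg hab, mul_zero]
    · have hab : ¬ (a * b) % 2 = 1 := by
          rw [Nat.mul_mod]
          rcases Nat.mod_two_eq_zero_or_one a with h | h
          · rw [h]; simp
          · exact absurd h ha
      rw [if_neg ha, if_neg hab, zero_mul]

end Pool.Agent.PowB
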