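import Mathlib

/-!
A Dirichlet series whose coefficients have bounded partial sums.
-/

set_option autoImplicit false

namespace Pool.Agent.PowB

open Filter Topology

theorem abel_id (χ : ℕ → ℂ) (a : ℕ → ℝ) (A n : ℕ) :
    ∑ k ∈ Finset.Ico A (A + n), χ k * (a k : ℂ) =
      (∑ k ∈ Finset.range (A + n), χ k) * (a (A + n) : ℂ) - (∑ k ∈ Finset.range A, χ k) * (a A : ℂ) +
      ∑ k ∈ Finset.Ico A (A + n), (∑ j ∈ Finset.range (k + 1), χ j) * ((a k : ℂ) - (a (k + 1) : ℂ)) := by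
  induction n with
  | zero => simp
  | succ n ih =>
    rw [← Nat.add_assoc, Finset.sum_Ico_succ_top (Nat.le_add_right A n), ih,
      Finset.sum_Ico_succ_top (Nat.le_add_right A n), Finset.sum_range_succ (fun k => χ k) (A + n)]
    ring

theorem abel_bound (χ : ℕ → ℂ) (a : ℕ → ℝ) (M : ℝ) (hM : 0 ≤ M)
    (hs : ∀ N, ‖∑ n ∈ Finset.range N, χ n‖ ≤ M) (A n : ℕ) (ha0 : ∀ k, A ≤ k → 0 ≤ a k)
    (ha : ∀ k, A ≤ k → a (k + 1) ≤ a k) :
    ‖∑ k ∈ Finset.Ico A (A + n), χ k * (a k : ℂ)‖ ≤ 2 * M * a A := by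
  rw [abel_id]
  have h1 : ‖(∑ k ∈ Finset.range (A + n), χ k) * (a (A + n) : ℂ)‖ ≤ M * a (A + n) := by
    rw [norm_mul, Complex.norm_real, Real.norm_of_nonneg (ha0 _ (Nat.le_add_right A n))]
    exact mul_le_mul_of_nonneg_right (hs _) (ha0 _ (Nat.le_add_right A n))
  have h2 : ‖(∑ k ∈ Finset.range A, χ k) * (a A : ℂ)‖ ≤ M * a A := by
    rw [norm_mul, Complex.norm_real, Real.norm_of_nonneg (ha0 _ le_rfl)]
    exact mul_le_mul_of_nonneg_right (hs _) (ha0 _ le_rfl)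
  have h3 : ‖∑ k ∈ Finset.Ico A (A + n), (∑ j ∈ Finset.range (k + 1), χ j) *
      ((a k : ℂ) - (a (k + 1) : ℂ))‖ ≤ M * (a A - a (A + n)) := by
    have h4 : ∑ k ∈ Finset.Ico A (A + n), (a k - a (k + 1)) = a A - a (A + n) := by
      rw [Finset.sum_Ico_eq_sum_range, Nat.add_sub_cancel_left]
      have := Finset.sum_range_sub' (fun i => a (A + i)) n
      simpa [Nat.add_assoc] using this
    refine (norm_sum_le _ _).trans ?_
    rw [← h4, Finset.mul_sum]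
    apply Finset.sum_le_sum
    intro k hk
    have hk' := (Finset.mem_Ico.1 hk).1
    have h5 : 0 ≤ a k - a (k + 1) := by linarith [ha k hk']
    rw [norm_mul, ← Complex.ofReal_sub, Complex.norm_real, Real.norm_of_nonneg h5]
    exact mul_le_mul_of_nonneg_right (hs _) h5
  calc _ ≤ ‖(∑ k ∈ Finset.range (A + n), χ k) * (a (A + n) : ℂ) -
          (∑ k ∈ Finset.range A, χ k) * (a A : ℂ)‖ + _ := norm_add_le _ _
    _ ≤ (‖(∑ k ∈ Finset.range (A + n), χ k) * (a (A + n) : ℂ)‖ +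
          ‖(∑ k ∈ Finset.range A, χ k) * (a A : ℂ)‖) + M * (a A - a (A + n)) := by
        gcongr
        exact norm_sub_le _ _
    _ ≤ (M * a (A + n) + M * a A) + M * (a A - a (A + n)) := by gcongr
    _ = _ := by ring

theorem summable_term (χ : ℕ → ℂ) (h1 : ∀ n, ‖χ n‖ ≤ 1) {σ : ℝ} (hσ : 1 < σ) :
    Summable (fun n : ℕ => χ n * (((n : ℝ) ^ (-σ) : ℝ) : ℂ)) := by
  apply Summable.of_norm_bounded (g := fun n : ℕ => (n : ℝ) ^ (-σ))
  · exact Real.summable_nat_rpow.2 (by linarith)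
  · intro n
    have h2 : (0 : ℝ) ≤ (n : ℝ) ^ (-σ) := Real.rpow_nonneg (Nat.cast_nonneg n) _
    rw [norm_mul, Complex.norm_real, Real.norm_of_nonneg h2]
    calc ‖χ n‖ * (n : ℝ) ^ (-σ) ≤ 1 * (n : ℝ) ^ (-σ) := mul_le_mul_of_nonneg_right (h1 n) h2
      _ = _ := one_mul _

/-- a Dirichlet series with bounded partial sums of the coefficients -/
theorem dirichlet_bound (χ : ℕ → ℂ) (h0 : χ 0 = 0) (h1 : ∀ n, ‖χ n‖ ≤ 1) (M : ℕ) (hM : 1 ≤ M)
    (hs : ∀ N, ‖∑ n ∈ Finset.range N, χ n‖ ≤ M) {σ : ℝ} (hσ : 1 < σ) :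
    ‖∑' n : ℕ, χ n * (((n : ℝ) ^ (-σ) : ℝ) : ℂ)‖ ≤ Real.log M + 4 := by
  have hsum := summable_term χ h1 hσ
  have htend := hsum.hasSum.tendsto_sum_nat
  have htend2 := (htend.comp (tendsto_add_atTop_nat (M + 1))).norm
  refine le_of_tendsto htend2 (Eventually.of_forall (fun n => ?_))
  simp only [Function.comp_apply]
  rw [Nat.add_comm n (M + 1), ← Finset.sum_range_add_sum_Ico _ (Nat.le_add_right (M + 1) n)]
  have hanti : ∀ k, M + 1 ≤ k → ((k + 1 : ℕ) : ℝ) ^ (-σ) ≤ (k : ℝ) ^ (-σ) := by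
    intro k hk
    have hk0 : (0 : ℝ) < k := by
      have : 0 < k := by omega
      exact_mod_cast this
    apply Real.rpow_le_rpow_of_nonpos hk0 _ (by linarith)
    push_cast
    linarith
  have htail := abel_bound χ (fun k : ℕ => (k : ℝ) ^ (-σ)) M (Nat.cast_nonneg M) hs (M + 1) n
    (fun k _ => Real.rpow_nonneg (Nat.cast_nonneg k) _) hanti
  have hM0 : (1 : ℝ) ≤ M := by exact_mod_cast hM
  have ha : ((M + 1 : ℕ) : ℝ) ^ (-σ) ≤ ((M + 1 : ℕ) : ℝ)⁻¹ := by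
    rw [← Real.rpow_neg_one]
    apply Real.rpow_le_rpow_of_exponent_le
    · push_cast
      linarith
    · linarith
  have htail2 : 2 * (M : ℝ) * ((M + 1 : ℕ) : ℝ) ^ (-σ) ≤ 2 := by
    have h3 : 2 * (M : ℝ) * ((M + 1 : ℕ) : ℝ) ^ (-σ) ≤ 2 * (M : ℝ) * ((M + 1 : ℕ) : ℝ)⁻¹ := by
      gcongr
    have h4 : 2 * (M : ℝ) * ((M + 1 : ℕ) : ℝ)⁻¹ ≤ 2 := by
      rw [← div_eq_mul_inv, div_le_iff₀ (by positivity)]
      push_cast
      linarith
    linarith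
  have hhead : ‖∑ k ∈ Finset.range (M + 1), χ k * (((k : ℝ) ^ (-σ) : ℝ) : ℂ)‖ ≤
      1 + Real.log M := by
    have h5 : ‖∑ k ∈ Finset.range (M + 1), χ k * (((k : ℝ) ^ (-σ) : ℝ) : ℂ)‖ ≤
        ∑ k ∈ Finset.range M, ((k + 1 : ℕ) : ℝ)⁻¹ := by
      rw [Finset.sum_range_succ', h0, zero_mul, add_zero]
      refine (norm_sum_le _ _).trans (Finset.sum_le_sum (fun k _ => ?_))
      have h2 : (0 : ℝ) ≤ ((k + 1 : ℕ) : ℝ) ^ (-σ) := Real.rpow_nonneg (Nat.cast_nonneg _) _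
      rw [norm_mul, Complex.norm_real, Real.norm_of_nonneg h2]
      calc ‖χ (k + 1)‖ * ((k + 1 : ℕ) : ℝ) ^ (-σ) ≤ 1 * ((k + 1 : ℕ) : ℝ) ^ (-σ) :=
            mul_le_mul_of_nonneg_right (h1 _) h2
        _ = ((k + 1 : ℕ) : ℝ) ^ (-σ) := one_mul _
        _ ≤ ((k + 1 : ℕ) : ℝ) ^ (-1 : ℝ) := by
            apply Real.rpow_le_rpow_of_exponent_le
            · push_cast
              linarith [(Nat.cast_nonneg k : (0 : ℝ) ≤ k)]
            · linarith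
        _ = _ := Real.rpow_neg_one _
    have h6 := harmonic_le_one_add_log M
    unfold harmonic at h6
    push_cast at h6 h5
    linarith
  calc _ ≤ _ := norm_add_le _ _
    _ ≤ (1 + Real.log M) + 2 := add_le_add hhead (htail.trans htail2)
    _ ≤ _ := by linarith

end Pool.Agent.PowB
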