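import Mathlib

/-!
Dyadic sums.
-/

set_option autoImplicit false

namespace Pool.Agent.PowB

/-- `1 - 2 ^ (-x) ≥ x / 2` on `[0, 1]` -/
theorem one_sub_two_rpow {x : ℝ} (h0 : 0 ≤ x) (h1 : x ≤ 1) : x / 2 ≤ 1 - (2 : ℝ) ^ (-x) := by
  have h := Real.geom_mean_le_arith_mean2_weighted (w₁ := x) (w₂ := 1 - x) (p₁ := 1 / 2) (p₂ := 1)
    h0 (by linarith) (by norm_num) (by norm_num) (by ring)
  rw [Real.one_rpow, mul_one] at h
  have h2 : (2 : ℝ) ^ (-x) = (1 / 2) ^ x := by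
    rw [Real.rpow_neg (by norm_num), one_div, Real.inv_rpow (by norm_num)]
  rw [h2]
  linarith

/-- finite geometric sums over a set of exponents -/
theorem geom_set {x : ℝ} (h0 : 0 < x) (h1 : x < 1) (J : Finset ℕ) :
    ∑ j ∈ J, x ^ j ≤ (1 - x)⁻¹ := by
  have hs := summable_geometric_of_lt_one h0.le h1
  rw [← tsum_geometric_of_lt_one h0.le h1]
  exact hs.sum_le_tsum J (fun j _ => by positivity)

/-- the part above a threshold -/
theorem geom_set_ge (J : Finset ℕ) (y : ℝ) (hy : 0 < y) (hJ : ∀ j ∈ J, y ≤ (2 : ℝ) ^ (j + 1)) :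
    ∑ j ∈ J, ((2 : ℝ) ^ j)⁻¹ ≤ 4 / y := by
  rcases J.eq_empty_or_nonempty with rfl | hne
  · simp only [Finset.sum_empty]
    positivity
  · set j₀ := J.min' hne with hj₀
    have h1 : y ≤ (2 : ℝ) ^ (j₀ + 1) := hJ _ (Finset.min'_mem J hne)
    have h2 : ∑ j ∈ J, ((2 : ℝ) ^ j)⁻¹ =
        ∑ j ∈ J, ((2 : ℝ) ^ j₀)⁻¹ * (1 / 2 : ℝ) ^ (j - j₀) := by
      refine Finset.sum_congr rfl (fun j hj => ?_)
      have h3 : j₀ ≤ j := Finset.min'_le J j hj
      obtain ⟨i, rfl⟩ := Nat.exists_eq_add_of_le h3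
      rw [Nat.add_sub_cancel_left, pow_add, mul_inv, one_div, inv_pow]
    have hinj : Set.InjOn (fun j => j - j₀) (J : Set ℕ) := by
      intro a ha b hb hab
      have h3 : j₀ ≤ a := Finset.min'_le J a ha
      have h4 : j₀ ≤ b := Finset.min'_le J b hb
      simp only at hab
      omega
    rw [h2, ← Finset.mul_sum, ← Finset.sum_image (f := fun i => (1 / 2 : ℝ) ^ i) hinj]
    have h3 := geom_set (x := 1 / 2) (by norm_num) (by norm_num) (J.image (fun j => j - j₀))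
    have h4 : (1 - (1 / 2 : ℝ))⁻¹ = 2 := by norm_num
    rw [h4] at h3
    have h5 : ((2 : ℝ) ^ j₀)⁻¹ ≤ 2 / y := by
      rw [pow_succ] at h1
      rw [inv_eq_one_div, div_le_div_iff₀ (by positivity) hy]
      linarith
    calc ((2 : ℝ) ^ j₀)⁻¹ * ∑ i ∈ J.image (fun j => j - j₀), (1 / 2 : ℝ) ^ i
        ≤ (2 / y) * 2 := by
          apply mul_le_mul h5 h3
          · exact Finset.sum_nonneg (fun i _ => by positivity)
          · positivity
      _ = 4 / y := by ring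

/-- a sum over a set of integers with few elements -/
theorem layer (T : Finset ℕ) (a b y : ℝ) (ha : 0 ≤ a) (hb : 0 ≤ b) (hy : 1 ≤ y)
    (hT : ∀ g ∈ T, y ≤ (g : ℝ))
    (hcount : ∀ G : ℕ, ((T.filter (fun g => g ≤ G)).card : ℝ) ≤ a + b * G) {σ : ℝ}
    (hσ : 1 < σ) (hσ2 : σ ≤ 2) :
    ∑ g ∈ T, (g : ℝ) ^ (-σ) ≤ 4 * a / y + 4 * b / (σ - 1) := by
  classical
  set J := T.image (Nat.log 2) with hJ
  have hmaps : ∀ g ∈ T, Nat.log 2 g ∈ J := fun g hg => Finset.mem_image_of_mem _ hg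
  rw [← Finset.sum_fiberwise_of_maps_to hmaps]
  have hpos : ∀ g ∈ T, g ≠ 0 := by
    intro g hg h0
    have := hT g hg
    rw [h0] at this
    norm_num at this
    linarith
  set x : ℝ := (2 : ℝ) ^ (-(σ - 1)) with hx
  have hx0 : 0 < x := by positivity
  have hx1 : x < 1 := Real.rpow_lt_one_of_one_lt_of_neg (by norm_num) (by linarith)
  have hblock : ∀ j ∈ J, ∑ g ∈ T.filter (fun g => Nat.log 2 g = j), (g : ℝ) ^ (-σ) ≤
      a * ((2 : ℝ) ^ j)⁻¹ + 2 * b * x ^ j := by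
    intro j _
    have h1 : ∀ g ∈ T.filter (fun g => Nat.log 2 g = j), (g : ℝ) ^ (-σ) ≤
        ((2 : ℝ) ^ j)⁻¹ * x ^ j := by
      intro g hg
      rw [Finset.mem_filter] at hg
      have h2 : 2 ^ j ≤ g := by
        rw [← hg.2]
        exact Nat.pow_log_le_self 2 (hpos g hg.1)
      have h3 : ((2 : ℝ) ^ j) ≤ g := by exact_mod_cast h2
      have h4 : (g : ℝ) ^ (-σ) ≤ ((2 : ℝ) ^ j) ^ (-σ) :=
        Real.rpow_le_rpow_of_nonpos (by positivity) h3 (by linarith)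
      refine h4.trans (le_of_eq ?_)
      have h5 : -σ = -1 + -(σ - 1) := by ring
      rw [h5, Real.rpow_add (by positivity), Real.rpow_neg_one, hx, ← Real.rpow_natCast 2 j,
        ← Real.rpow_mul (by norm_num), ← Real.rpow_natCast (2 ^ (-(σ - 1)) : ℝ) j,
        ← Real.rpow_mul (by norm_num), mul_comm (j : ℝ)]
    have h6 : ((T.filter (fun g => Nat.log 2 g = j)).card : ℝ) ≤ a + b * (2 : ℝ) ^ (j + 1) := by
      have h7 := hcount (2 ^ (j + 1))
      push_cast at h7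
      refine le_trans ?_ h7
      apply Nat.cast_le.2
      apply Finset.card_le_card
      intro g hg
      rw [Finset.mem_filter] at hg ⊢
      refine ⟨hg.1, ?_⟩
      rw [← hg.2]
      exact (Nat.lt_pow_succ_log_self (by norm_num) g).le
    refine (Finset.sum_le_card_nsmul _ _ _ h1).trans ?_
    rw [nsmul_eq_mul]
    have hxj : x ^ j ≤ 1 := pow_le_one₀ hx0.le hx1.le
    have h8 : (0 : ℝ) ≤ ((2 : ℝ) ^ j)⁻¹ * x ^ j := by positivity
    calc ((T.filter (fun g => Nat.log 2 g = j)).card : ℝ) * (((2 : ℝ) ^ j)⁻¹ * x ^ j)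
        ≤ (a + b * (2 : ℝ) ^ (j + 1)) * (((2 : ℝ) ^ j)⁻¹ * x ^ j) :=
          mul_le_mul_of_nonneg_right h6 h8
      _ = a * ((2 : ℝ) ^ j)⁻¹ * x ^ j + 2 * b * x ^ j := by
          rw [pow_succ]
          field_simp
      _ ≤ a * ((2 : ℝ) ^ j)⁻¹ * 1 + 2 * b * x ^ j := by gcongr
      _ = _ := by ring
  refine (Finset.sum_le_sum hblock).trans ?_
  rw [Finset.sum_add_distrib, ← Finset.mul_sum, ← Finset.mul_sum]
  have hfirst : ∑ j ∈ J, ((2 : ℝ) ^ j)⁻¹ ≤ 4 / y := by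
    apply geom_set_ge J y (by linarith)
    intro j hj
    rw [hJ, Finset.mem_image] at hj
    obtain ⟨g, hg, rfl⟩ := hj
    refine (hT g hg).trans ?_
    exact_mod_cast (Nat.lt_pow_succ_log_self (by norm_num : 1 < 2) g).le
  have hsecond : ∑ j ∈ J, x ^ j ≤ 2 / (σ - 1) := by
    refine (geom_set hx0 hx1 J).trans ?_
    have h9 := one_sub_two_rpow (x := σ - 1) (by linarith) (by linarith)
    rw [← hx] at h9
    rw [inv_eq_one_div, div_le_div_iff₀ (by linarith) (by linarith)]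
    linarith
  calc a * ∑ j ∈ J, ((2 : ℝ) ^ j)⁻¹ + 2 * b * ∑ j ∈ J, x ^ j
      ≤ a * (4 / y) + 2 * b * (2 / (σ - 1)) := by gcongr
    _ = _ := by ring

/-- a sum over a family with power growth -/
theorem family_sum {β s : ℝ} (hβ : 0 ≤ β) (hs : β < s) : ∃ C : ℝ, 0 < C ∧
    ∀ {ι : Type} (F : Finset ι) (D : ι → ℕ) (D₀ : ℝ), 1 ≤ D₀ → (∀ i ∈ F, D₀ < (D i : ℝ)) →
      (∀ X : ℝ, D₀ ≤ X → ((F.filter (fun i => (D i : ℝ) ≤ X)).card : ℝ) ≤ X ^ β) →
      ∑ i ∈ F, (D i : ℝ) ^ (-s) ≤ C * D₀ ^ (β - s) := by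
  set x : ℝ := (2 : ℝ) ^ (β - s) with hx
  have hx0 : 0 < x := by positivity
  have hx1 : x < 1 := Real.rpow_lt_one_of_one_lt_of_neg (by norm_num) (by linarith)
  refine ⟨(2 : ℝ) ^ β * (1 - x)⁻¹, ?_, ?_⟩
  · have : 0 < (1 - x)⁻¹ := inv_pos.2 (by linarith)
    positivity
  intro ι F D D₀ hD₀ hF hcount
  classical
  have hD0 : 0 < D₀ := by linarith
  -- the block of `i`
  set blk : ι → ℕ := fun i => Nat.log 2 ⌊(D i : ℝ) / D₀⌋₊ with hblk
  set J := F.image blk with hJ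
  have hmaps : ∀ i ∈ F, blk i ∈ J := fun g hg => Finset.mem_image_of_mem _ hg
  rw [← Finset.sum_fiberwise_of_maps_to hmaps]
  have hlow : ∀ i ∈ F, (2 : ℝ) ^ blk i * D₀ ≤ D i ∧ (D i : ℝ) ≤ (2 : ℝ) ^ (blk i + 1) * D₀ := by
    intro i hi
    have h1 : (1 : ℝ) ≤ (D i : ℝ) / D₀ := by
      rw [le_div_iff₀ hD0, one_mul]
      exact (hF i hi).le
    have h2 : ⌊(D i : ℝ) / D₀⌋₊ ≠ 0 := by
      have := (Nat.one_le_floor_iff _).2 h1
      omega
    constructor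
    · have h3 : ((2 ^ blk i : ℕ) : ℝ) ≤ (⌊(D i : ℝ) / D₀⌋₊ : ℝ) := by
        exact_mod_cast Nat.pow_log_le_self 2 h2
      have h4 := h3.trans (Nat.floor_le (by positivity))
      rw [le_div_iff₀ hD0] at h4
      exact_mod_cast h4
    · have h3 : ⌊(D i : ℝ) / D₀⌋₊ + 1 ≤ 2 ^ (blk i + 1) :=
        Nat.lt_pow_succ_log_self (by norm_num) _
      have h4 : (D i : ℝ) / D₀ ≤ ((2 ^ (blk i + 1) : ℕ) : ℝ) := by
        refine (Nat.lt_floor_add_one _).le.trans ?_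
        exact_mod_cast h3
      rw [div_le_iff₀ hD0] at h4
      exact_mod_cast h4
  have hblock : ∀ j ∈ J, ∑ i ∈ F.filter (fun i => blk i = j), (D i : ℝ) ^ (-s) ≤
      (2 : ℝ) ^ β * D₀ ^ (β - s) * x ^ j := by
    intro j _
    have h1 : ∀ i ∈ F.filter (fun i => blk i = j), (D i : ℝ) ^ (-s) ≤
        ((2 : ℝ) ^ j * D₀) ^ (-s) := by
      intro i hi
      rw [Finset.mem_filter] at hi
      have h2 := (hlow i hi.1).1
      rw [hi.2] at h2
      exact Real.rpow_le_rpow_of_nonpos (by positivity) h2 (by linarith)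
    refine (Finset.sum_le_card_nsmul _ _ _ h1).trans ?_
    rw [nsmul_eq_mul]
    have h3 : ((F.filter (fun i => blk i = j)).card : ℝ) ≤ ((2 : ℝ) ^ (j + 1) * D₀) ^ β := by
      refine le_trans ?_ (hcount ((2 : ℝ) ^ (j + 1) * D₀) ?_)
      · apply Nat.cast_le.2
        apply Finset.card_le_card
        intro i hi
        rw [Finset.mem_filter] at hi ⊢
        have h2 := (hlow i hi.1).2
        rw [hi.2] at h2
        exact ⟨hi.1, h2⟩
      · have : (1 : ℝ) ≤ (2 : ℝ) ^ (j + 1) := one_le_pow₀ (by norm_num)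
        nlinarith
    calc ((F.filter (fun i => blk i = j)).card : ℝ) * ((2 : ℝ) ^ j * D₀) ^ (-s)
        ≤ ((2 : ℝ) ^ (j + 1) * D₀) ^ β * ((2 : ℝ) ^ j * D₀) ^ (-s) := by gcongr
      _ = (2 : ℝ) ^ β * D₀ ^ (β - s) * x ^ j := by
          have e1 : (2 : ℝ) ^ (j + 1) * D₀ = 2 * ((2 : ℝ) ^ j * D₀) := by ring
          rw [e1, Real.mul_rpow (by norm_num) (by positivity), mul_assoc,
            ← Real.rpow_add (by positivity), ← sub_eq_add_neg,
            Real.mul_rpow (by positivity) hD0.le, hx, ← Real.rpow_natCast 2 j,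
            ← Real.rpow_natCast ((2 : ℝ) ^ (β - s)) j, ← Real.rpow_mul (by norm_num),
            ← Real.rpow_mul (by norm_num), mul_comm (j : ℝ)]
          ring
  refine (Finset.sum_le_sum hblock).trans ?_
  rw [← Finset.mul_sum]
  calc (2 : ℝ) ^ β * D₀ ^ (β - s) * ∑ j ∈ J, x ^ j
      ≤ (2 : ℝ) ^ β * D₀ ^ (β - s) * (1 - x)⁻¹ := by
        have := geom_set hx0 hx1 J
        gcongr
    _ = _ := by ring

end Pool.Agent.PowB
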