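import Pool.Agent.PowB.Defs
import Pool.Agent.PowB.Layer

/-!
The main inequality of part (B).
-/

set_option autoImplicit false

namespace Pool.Agent.PowB

open Pool.Agent.PowF Pool.Agent.CycSyl NumberField NumberTheorySymbols

theorem squarefree_prod {S : Finset ℕ} (hS : ∀ r ∈ S, r.Prime) : Squarefree (∏ r ∈ S, r) := by
  apply Finset.squarefree_prod_of_pairwise_isCoprime
  · intro x hx y hy hxy
    exact Nat.coprime_iff_isRelPrime.1 ((Nat.coprime_primes (hS x hx) (hS y hy)).2 hxy)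
  · intro q hq
    exact (hS q hq).squarefree

/-- the squarefree norms `≤ G` of ideals whose class has its `p ^ k`-th power in `C` -/
theorem fiber_count {p v k : ℕ} (H : Type) [CommGroup H] [Finite H] (hH : Nat.card H = p ^ v)
    (K : IntermediateField ℚ ℂ) [NumberField K] (hK : K ∈ fam p H) (C : Finset (ClassGroup (𝓞 K)))
    (T : Finset ℕ) (G : ℕ)
    (hT : ∀ g ∈ T, Squarefree g ∧ g ≤ G ∧ ∃ I : nonZeroDivisors (Ideal (𝓞 K)),
      Ideal.absNorm (I : Ideal (𝓞 K)) = g ∧ ClassGroup.mk0 I ^ (p ^ k) ∈ C) :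
    (T.card : ℝ) ≤ C.card * p ^ v * (1 + 7 * G / √(aD K : ℝ)) := by
  classical
  obtain ⟨_, h2, him, -⟩ := id hK
  set R' : Set (ClassGroup (𝓞 K)) := {g | g ^ (p ^ k) ∈ C} with hR'
  have hRc : R'.ncard ≤ C.card * p ^ v := by
    have hsub : R' = ⋃ κ ∈ C, {g : ClassGroup (𝓞 K) | g ^ (p ^ k) = κ} := by
      ext g
      simp [hR']
    rw [hsub]
    refine (Finset.set_ncard_biUnion_le C _).trans ?_
    refine (Finset.sum_le_card_nsmul C _ (p ^ v) fun κ _ =>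
      pow_fiber _ _ (root_card H hH K hK k) κ).trans ?_
    rw [smul_eq_mul]
  have hcl : ∀ g ∈ T, ∃ c ∈ R', ∃ I : nonZeroDivisors (Ideal (𝓞 K)),
      Ideal.absNorm (I : Ideal (𝓞 K)) = g ∧ ClassGroup.mk0 I = c := by
    intro g hg
    obtain ⟨-, -, I, hI, hc⟩ := hT g hg
    exact ⟨ClassGroup.mk0 I, hc, I, hI, rfl⟩
  choose! cl hclm hclI using hcl
  set F := R'.toFinite.toFinset with hF
  have hFc : F.card = R'.ncard := (Set.ncard_eq_toFinset_card R' _).symm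
  have hcard : T.card ≤ ∑ c ∈ F, (T.filter (fun r => cl r = c)).card := by
    rw [← Finset.card_eq_sum_card_fiberwise (f := cl) (s := T) (t := F)]
    intro r hr
    rw [Finset.mem_coe] at hr
    rw [Finset.mem_coe, hF, Set.Finite.mem_toFinset]
    exact hclm r hr
  have hbound : ∀ c ∈ F, ((T.filter (fun r => cl r = c)).card : ℝ) ≤
      1 + 7 * G / √(aD K : ℝ) := by
    intro c _
    apply class_count K h2 him c G
    intro n hn
    rw [Finset.mem_filter] at hn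
    obtain ⟨I, hI, hc⟩ := hclI n hn.1
    exact ⟨(hT n hn.1).1, (hT n hn.1).2.1, I, hI, by rw [hc, hn.2]⟩
  have h5 : (0 : ℝ) ≤ 1 + 7 * G / √(aD K : ℝ) := by positivity
  calc (T.card : ℝ) ≤ ∑ c ∈ F, ((T.filter (fun r => cl r = c)).card : ℝ) := by
        exact_mod_cast hcard
    _ ≤ ∑ c ∈ F, (1 + 7 * G / √(aD K : ℝ)) := Finset.sum_le_sum hbound
    _ = (R'.ncard : ℝ) * (1 + 7 * G / √(aD K : ℝ)) := by
        rw [Finset.sum_const, nsmul_eq_mul, hFc]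
    _ ≤ (C.card * p ^ v) * (1 + 7 * G / √(aD K : ℝ)) := by
        apply mul_le_mul_of_nonneg_right _ h5
        exact_mod_cast hRc

/-- the contribution of a field of large discriminant -/
theorem large_bound {p v k : ℕ} (H : Type) [CommGroup H] [Finite H] (hp : p.Prime)
    (hH : Nat.card H = p ^ v)
    (K : IntermediateField ℚ ℂ) [NumberField K] (hK : K ∈ fam p H) (C : Finset (ClassGroup (𝓞 K)))
    (c₀ : ℕ) (hC : C.card ≤ c₀) (W : ℕ) (hW : 0 < W) (D₀ : ℝ) (hD₀ : (W : ℝ) ^ (p ^ k) ≤ D₀)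
    (hlarge : D₀ < (aD K : ℝ)) (P : Finset ℕ) (hP : ∀ r ∈ P, r.Prime) (SS : Finset (Finset ℕ))
    (hSS : SS ⊆ P.powerset)
    (hS : ∀ S ∈ SS, aD K ≤ (W * ∏ r ∈ S, r) ^ (p ^ k) ∧ ∃ 𝔮 : ℕ → nonZeroDivisors (Ideal (𝓞 K)),
      (∀ r ∈ S, Ideal.absNorm (𝔮 r : Ideal (𝓞 K)) = r) ∧
        (∏ r ∈ S, ClassGroup.mk0 (𝔮 r)) ^ (p ^ k) ∈ C)
    (f : ℕ → ℝ) (hf : ∀ r, 0 ≤ f r ∧ f r ≤ 1) {σ : ℝ} (hσ : 1 < σ) (hσ2 : σ ≤ 2) :
    ∑ S ∈ SS, ∏ r ∈ S, f r * (r : ℝ) ^ (-σ) ≤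
      ((c₀ + 1) * p ^ v * (4 * W + 28)) * ((aD K : ℝ) ^ (-(1 / (p ^ k : ℝ))) +
        (aD K : ℝ) ^ (-(1 / 2) : ℝ) / (σ - 1)) := by
  classical
  have hW1 : (1 : ℝ) ≤ W := by exact_mod_cast hW
  have hp1 : (1 : ℝ) ≤ p := by exact_mod_cast hp.one_lt.le
  have hPk : (0 : ℝ) < (p : ℝ) ^ k := by positivity
  have hD1 : (1 : ℝ) ≤ D₀ := (one_le_pow₀ hW1).trans hD₀
  have hDpos : (0 : ℝ) < (aD K : ℝ) := by linarith
  set M : ℝ := (c₀ + 1) * p ^ v with hM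
  have hM1 : 0 < M := by positivity
  set T := SS.image (fun S => ∏ r ∈ S, r) with hT
  have hprime : ∀ S ∈ SS, ∀ r ∈ S, r.Prime := fun S hS r hr =>
    hP r (Finset.mem_powerset.1 (hSS hS) hr)
  have hinj : Set.InjOn (fun S : Finset ℕ => ∏ r ∈ S, r) (SS : Set (Finset ℕ)) := by
    intro S hS S' hS' h
    have h1 := Nat.primeFactors_prod (hprime S hS)
    have h2 := Nat.primeFactors_prod (hprime S' hS')
    rw [← h1, ← h2]
    exact congrArg Nat.primeFactors h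
  have hsum : ∑ S ∈ SS, ∏ r ∈ S, f r * (r : ℝ) ^ (-σ) ≤ ∑ g ∈ T, (g : ℝ) ^ (-σ) := by
    rw [hT, Finset.sum_image hinj]
    apply Finset.sum_le_sum
    intro S _
    rw [Nat.cast_prod, ← Real.finsetProd_rpow S (fun r => (r : ℝ)) (fun r _ => Nat.cast_nonneg r)]
    apply Finset.prod_le_prod
    · intro r _
      exact mul_nonneg (hf r).1 (Real.rpow_nonneg (Nat.cast_nonneg r) _)
    · intro r _
      calc f r * (r : ℝ) ^ (-σ) ≤ 1 * (r : ℝ) ^ (-σ) :=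
            mul_le_mul_of_nonneg_right (hf r).2 (Real.rpow_nonneg (Nat.cast_nonneg r) _)
        _ = _ := one_mul _
  set y : ℝ := (aD K : ℝ) ^ (1 / (p ^ k : ℝ)) / W with hy
  have hroot : ∀ x : ℝ, 0 ≤ x → (x ^ (p ^ k)) ^ (1 / (p ^ k : ℝ)) = x := by
    intro x hx
    have h1 : x ^ (p ^ k) = x ^ ((p : ℝ) ^ k) := by
      rw [← Real.rpow_natCast]
      push_cast
      rfl
    rw [h1, ← Real.rpow_mul hx, mul_one_div_cancel hPk.ne', Real.rpow_one]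
  have hy1 : 1 ≤ y := by
    rw [hy, le_div_iff₀ (by linarith), one_mul, ← hroot W (by linarith)]
    apply Real.rpow_le_rpow (by positivity) (hD₀.trans hlarge.le)
    positivity
  have hyT : ∀ g ∈ T, y ≤ (g : ℝ) := by
    intro g hg
    rw [hT, Finset.mem_image] at hg
    obtain ⟨S, hSm, rfl⟩ := hg
    have h1 : (aD K : ℝ) ≤ ((W * ∏ r ∈ S, r : ℕ) : ℝ) ^ (p ^ k) := by exact_mod_cast (hS S hSm).1
    rw [hy, div_le_iff₀ (by linarith)]
    calc (aD K : ℝ) ^ (1 / (p ^ k : ℝ)) ≤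
          (((W * ∏ r ∈ S, r : ℕ) : ℝ) ^ (p ^ k)) ^ (1 / (p ^ k : ℝ)) :=
          Real.rpow_le_rpow hDpos.le h1 (by positivity)
      _ = ((W * ∏ r ∈ S, r : ℕ) : ℝ) := hroot _ (by positivity)
      _ = _ := by push_cast; ring
  have hcount : ∀ G : ℕ, ((T.filter (fun g => g ≤ G)).card : ℝ) ≤
      M + (7 * M / √(aD K : ℝ)) * G := by
    intro G
    have h1 := fiber_count (k := k) H hH K hK C (T.filter (fun g => g ≤ G)) G ?_
    · refine h1.trans ?_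
      have h2 : (C.card : ℝ) ≤ c₀ + 1 := by
        have : (C.card : ℝ) ≤ c₀ := by exact_mod_cast hC
        linarith
      calc (C.card : ℝ) * p ^ v * (1 + 7 * G / √(aD K : ℝ)) ≤
            (c₀ + 1) * p ^ v * (1 + 7 * G / √(aD K : ℝ)) := by
            have h3 : (0 : ℝ) ≤ 1 + 7 * G / √(aD K : ℝ) := by positivity
            gcongr
        _ = _ := by rw [hM]; ring
    · intro g hg
      rw [Finset.mem_filter, hT, Finset.mem_image] at hg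
      obtain ⟨⟨S, hSm, rfl⟩, hgG⟩ := hg
      obtain ⟨-, 𝔮, h3, h4⟩ := hS S hSm
      refine ⟨squarefree_prod (hprime S hSm), hgG, ∏ r ∈ S, 𝔮 r, ?_, ?_⟩
      · rw [Submonoid.coe_finsetProd, map_prod]
        exact Finset.prod_congr rfl h3
      · rw [map_prod]
        exact h4
  have hlay := layer T M (7 * M / √(aD K : ℝ)) y hM1.le (by positivity) hy1 hyT hcount hσ hσ2
  refine (hsum.trans hlay).trans ?_
  have h6 : 4 * M / y = 4 * M * W * (aD K : ℝ) ^ (-(1 / (p ^ k : ℝ))) := by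
    rw [hy, Real.rpow_neg hDpos.le]
    field_simp
  have h7 : 4 * (7 * M / √(aD K : ℝ)) / (σ - 1) =
      28 * M * ((aD K : ℝ) ^ (-(1 / 2) : ℝ) / (σ - 1)) := by
    rw [Real.rpow_neg hDpos.le, ← Real.sqrt_eq_rpow]
    field_simp
    ring
  rw [h6, h7]
  have h8 : (0 : ℝ) ≤ (aD K : ℝ) ^ (-(1 / (p ^ k : ℝ))) := Real.rpow_nonneg hDpos.le _
  have h9 : (0 : ℝ) ≤ (aD K : ℝ) ^ (-(1 / 2) : ℝ) / (σ - 1) :=
    div_nonneg (Real.rpow_nonneg hDpos.le _) (by linarith)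
  nlinarith [mul_nonneg hM1.le h8, mul_nonneg hM1.le h9,
    mul_nonneg (mul_nonneg hM1.le h9) (by linarith : (0 : ℝ) ≤ W)]

/-- the main inequality -/
theorem split_ineq {p v k : ℕ} (hp : p.Prime) (H : Type) [CommGroup H] [Finite H]
    (hH : Nat.card H = p ^ v) (hit : ClassHit p k H) :
    ∃ (W : ℕ) (M : ℝ), 0 < W ∧ 0 < M ∧ ∀ (P : Finset ℕ) (f : ℕ → ℝ) (σ D₀ : ℝ),
      (∀ r ∈ P, Al p W r) → (∀ r, 0 ≤ f r ∧ f r ≤ 1) → 1 < σ → σ ≤ 2 →
      (W : ℝ) ^ (p ^ k) ≤ D₀ →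
      ∃ (F : Finset (IntermediateField ℚ ℂ)) (dd : IntermediateField ℚ ℂ → ℕ),
        (∀ K ∈ F, K ∈ fam p H ∧ 0 < dd K ∧ ¬ p ∣ dd K ∧ dd K ≤ aD K) ∧
        ∏ r ∈ P, (1 + f r * (r : ℝ) ^ (-σ)) ≤
          ∑ K ∈ F.filter (fun K => (aD K : ℝ) ≤ D₀),
            ∏ r ∈ P.filter (fun r : ℕ => J(-(dd K : ℤ) | r) ≠ -1), (1 + f r * (r : ℝ) ^ (-σ)) +
          M * ∑ K ∈ F.filter (fun K => ¬ (aD K : ℝ) ≤ D₀),
            ((aD K : ℝ) ^ (-(1 / (p ^ k : ℝ))) + (aD K : ℝ) ^ (-(1 / 2) : ℝ) / (σ - 1)) := by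
  classical
  obtain ⟨W, c₀, hW, CC, hCC, hmain⟩ := hit
  refine ⟨W, (c₀ + 1) * p ^ v * (4 * W + 28), hW, ?_, ?_⟩
  · have := hp.pos
    positivity
  intro P f σ D₀ hP hf hσ hσ2 hD₀
  have hall : ∀ S ∈ P.powerset, ∃ K : IntermediateField ℚ ℂ, ∃ _ : NumberField K, K ∈ fam p H ∧
      aD K ≤ (W * ∏ s ∈ S, s) ^ (p ^ k) ∧ (∃ d : ℕ, Sqd K d ∧ ¬ p ∣ d) ∧
      ∃ 𝔮 : ℕ → nonZeroDivisors (Ideal (𝓞 K)),
        (∀ s ∈ S, Ideal.absNorm (𝔮 s : Ideal (𝓞 K)) = s) ∧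
        (∏ s ∈ S, ClassGroup.mk0 (𝔮 s)) ^ (p ^ k) ∈ CC K :=
    fun S hS => hmain S (fun r hr => hP r (Finset.mem_powerset.1 hS hr))
  choose! Kf nf hfam haD hd hq using hall
  obtain ⟨dd, hdd⟩ : ∃ dd : IntermediateField ℚ ℂ → ℕ, ∀ K, (∃ d : ℕ, Sqd K d ∧ ¬ p ∣ d) →
      Sqd K (dd K) ∧ ¬ p ∣ dd K := by
    refine ⟨fun K => if h : ∃ d : ℕ, Sqd K d ∧ ¬ p ∣ d then h.choose else 0, fun K h => ?_⟩
    simp only [dif_pos h]
    exact h.choose_spec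
  refine ⟨P.powerset.image Kf, dd, ?_, ?_⟩
  · intro K hK
    rw [Finset.mem_image] at hK
    obtain ⟨S, hS, rfl⟩ := hK
    have := nf S hS
    obtain ⟨_, h2, him, -⟩ := id (hfam S hS)
    obtain ⟨h3, h4⟩ := hdd _ (hd S hS)
    exact ⟨hfam S hS, h3.1, h4, sqd_le_aD _ h2 h3⟩
  have hx : ∀ r : ℕ, 0 ≤ f r * (r : ℝ) ^ (-σ) := fun r =>
    mul_nonneg (hf r).1 (Real.rpow_nonneg (Nat.cast_nonneg r) _)
  -- transport of the ideal data
  have htr : ∀ (S : Finset ℕ) (K K' : IntermediateField ℚ ℂ) (inst : NumberField K)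
      (inst' : NumberField K'), K = K' → (∃ 𝔮 : ℕ → nonZeroDivisors (Ideal (𝓞 K)),
        (∀ s ∈ S, Ideal.absNorm (𝔮 s : Ideal (𝓞 K)) = s) ∧
        (∏ s ∈ S, ClassGroup.mk0 (𝔮 s)) ^ (p ^ k) ∈ @CC K inst) →
      ∃ 𝔮 : ℕ → nonZeroDivisors (Ideal (𝓞 K')),
        (∀ s ∈ S, Ideal.absNorm (𝔮 s : Ideal (𝓞 K')) = s) ∧
        (∏ s ∈ S, ClassGroup.mk0 (𝔮 s)) ^ (p ^ k) ∈ @CC K' inst' := by
    rintro S K K' inst inst' rfl h
    exact h
  have htotal : ∏ r ∈ P, (1 + f r * (r : ℝ) ^ (-σ)) =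
      ∑ K ∈ P.powerset.image Kf, ∑ S ∈ P.powerset.filter (fun S => Kf S = K),
        ∏ r ∈ S, f r * (r : ℝ) ^ (-σ) := by
    rw [Finset.prod_one_add]
    refine (Finset.sum_fiberwise_of_maps_to (fun S hS => Finset.mem_image_of_mem Kf hS) _).symm
  rw [htotal, ← Finset.sum_filter_add_sum_filter_not (P.powerset.image Kf)
    (fun K => (aD K : ℝ) ≤ D₀), Finset.mul_sum]
  apply add_le_add
  · apply Finset.sum_le_sum
    intro K hK
    rw [Finset.mem_filter, Finset.mem_image] at hK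
    obtain ⟨⟨S₀, hS₀, rfl⟩, -⟩ := hK
    rw [Finset.prod_one_add]
    apply Finset.sum_le_sum_of_subset_of_nonneg
    · intro S hS
      rw [Finset.mem_filter] at hS
      obtain ⟨hS1, hS2⟩ := hS
      rw [Finset.mem_powerset]
      intro r hr
      rw [Finset.mem_filter]
      refine ⟨Finset.mem_powerset.1 hS1 hr, ?_⟩
      have := nf S₀ hS₀
      obtain ⟨𝔮, h3, -⟩ := htr S _ _ (nf S hS1) this hS2 (hq S hS1)
      exact not_inert' _ (hdd _ (hd S₀ hS₀)).1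
        (hP r (Finset.mem_powerset.1 hS1 hr)).1 _ (h3 r hr)
    · intro S _ _
      exact Finset.prod_nonneg (fun r _ => hx r)
  · apply Finset.sum_le_sum
    intro K hK
    rw [Finset.mem_filter, Finset.mem_image] at hK
    obtain ⟨⟨S₀, hS₀, rfl⟩, hlarge⟩ := hK
    have := nf S₀ hS₀
    refine large_bound (k := k) H hp hH (Kf S₀) (hfam S₀ hS₀) (CC (Kf S₀)) c₀ (hCC _) W hW D₀ hD₀
      (not_le.1 hlarge) P (fun r hr => (hP r hr).1) _ (Finset.filter_subset _ _) ?_ f hf hσ hσ2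
    intro S hS
    rw [Finset.mem_filter] at hS
    obtain ⟨hS1, hS2⟩ := hS
    refine ⟨?_, htr S _ _ (nf S hS1) this hS2 (hq S hS1)⟩
    have := haD S hS1
    rwa [hS2] at this

end Pool.Agent.PowB
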