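import Mathlib

/-!
The logarithm of an Euler product.
-/

set_option autoImplicit false

namespace Pool.Agent.PowB

open Filter Topology

/-- the completely multiplicative function `χ(n) n ^ (-σ)` -/
noncomputable def twist (χ : ℕ →*₀ ℂ) (σ : ℝ) : ℕ →*₀ ℂ where
  toFun n := χ n * (((n : ℝ) ^ (-σ) : ℝ) : ℂ)
  map_zero' := by simp
  map_one' := by simp
  map_mul' a b := by
    rw [map_mul, Nat.cast_mul, Real.mul_rpow (Nat.cast_nonneg a) (Nat.cast_nonneg b)]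
    push_cast
    ring

theorem norm_twist_le (χ : ℕ →*₀ ℂ) (h1 : ∀ n, ‖χ n‖ ≤ 1) (σ : ℝ) (n : ℕ) :
    ‖twist χ σ n‖ ≤ (n : ℝ) ^ (-σ) := by
  have h2 : (0 : ℝ) ≤ (n : ℝ) ^ (-σ) := Real.rpow_nonneg (Nat.cast_nonneg n) _
  show ‖χ n * (((n : ℝ) ^ (-σ) : ℝ) : ℂ)‖ ≤ _
  rw [norm_mul, Complex.norm_real, Real.norm_of_nonneg h2]
  calc ‖χ n‖ * (n : ℝ) ^ (-σ) ≤ 1 * (n : ℝ) ^ (-σ) := mul_le_mul_of_nonneg_right (h1 n) h2
    _ = _ := one_mul _

/-- `∑ r ^ (-2)` over primes is at most `2` -/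
theorem sum_primes_sq : Summable (fun r : Nat.Primes => (((r : ℕ) : ℝ) ^ (-2 : ℝ))) ∧
    ∑' r : Nat.Primes, (((r : ℕ) : ℝ) ^ (-2 : ℝ)) ≤ 2 := by
  have hs : Summable (fun n : ℕ => ((n : ℝ) ^ (-2 : ℝ))) :=
    Real.summable_nat_rpow.2 (by norm_num)
  have hs2 : Summable (fun r : Nat.Primes => (((r : ℕ) : ℝ) ^ (-2 : ℝ))) :=
    hs.comp_injective Nat.Primes.coe_nat_injective
  refine ⟨hs2, ?_⟩
  have h1 : ∑' r : Nat.Primes, (((r : ℕ) : ℝ) ^ (-2 : ℝ)) ≤ ∑' n : ℕ, ((n : ℝ) ^ (-2 : ℝ)) :=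
    hs2.tsum_le_tsum_of_inj (fun r : Nat.Primes => (r : ℕ)) Nat.Primes.coe_nat_injective
      (fun n _ => Real.rpow_nonneg (Nat.cast_nonneg n) _) (fun r => le_rfl) hs
  have h2 : ∑' n : ℕ, ((n : ℝ) ^ (-2 : ℝ)) = Real.pi ^ 2 / 6 := by
    rw [← hasSum_zeta_two.tsum_eq]
    refine tsum_congr (fun n => ?_)
    rw [Real.rpow_neg (Nat.cast_nonneg n), one_div]
    norm_cast
  have h3 : Real.pi < 3.15 := Real.pi_lt_d2
  have h4 : Real.pi ^ 2 / 6 ≤ 2 := by nlinarith [Real.pi_pos]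
  linarith

/-- the logarithm of the Euler product -/
theorem log_bound (χ : ℕ →*₀ ℂ) (h1 : ∀ n, ‖χ n‖ ≤ 1) {σ : ℝ} (hσ : 1 < σ) :
    (∑' n : ℕ, χ n * (((n : ℝ) ^ (-σ) : ℝ) : ℂ)) ≠ 0 ∧
    |(∑' r : Nat.Primes, (χ r).re * ((r : ℕ) : ℝ) ^ (-σ)) -
      Real.log ‖∑' n : ℕ, χ n * (((n : ℝ) ^ (-σ) : ℝ) : ℂ)‖| ≤ 2 := by
  have hs0 : Summable (fun n : ℕ => ((n : ℝ) ^ (-σ))) := Real.summable_nat_rpow.2 (by linarith)
  have hs0p : Summable (fun r : Nat.Primes => (((r : ℕ) : ℝ) ^ (-σ))) :=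
    hs0.comp_injective Nat.Primes.coe_nat_injective
  have hsum : Summable (fun n => ‖twist χ σ n‖) :=
    Summable.of_nonneg_of_le (fun n => norm_nonneg _) (norm_twist_le χ h1 σ) hs0
  have hexp := EulerProduct.exp_tsum_primes_log_eq_tsum hsum
  have htw : ∑' n : ℕ, twist χ σ n = ∑' n : ℕ, χ n * (((n : ℝ) ^ (-σ) : ℝ) : ℂ) := rfl
  rw [← htw, ← hexp]
  refine ⟨Complex.exp_ne_zero _, ?_⟩
  rw [Complex.norm_exp, Real.log_exp]
  -- norms at primes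
  have hhalf : ∀ r : Nat.Primes, ‖twist χ σ r‖ ≤ 1 / 2 := by
    intro r
    refine (norm_twist_le χ h1 σ r).trans ?_
    have h2 : (2 : ℝ) ≤ ((r : ℕ) : ℝ) := by exact_mod_cast r.2.two_le
    calc (((r : ℕ) : ℝ)) ^ (-σ) ≤ (((r : ℕ) : ℝ)) ^ (-1 : ℝ) :=
          Real.rpow_le_rpow_of_exponent_le (by linarith) (by linarith)
      _ = (((r : ℕ) : ℝ))⁻¹ := Real.rpow_neg_one _
      _ ≤ 1 / 2 := by
          rw [inv_eq_one_div]
          exact one_div_le_one_div_of_le (by norm_num) h2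
  have hterm : ∀ r : Nat.Primes, ‖-Complex.log (1 - twist χ σ r) - twist χ σ r‖ ≤
      ((r : ℕ) : ℝ) ^ (-2 : ℝ) := by
    intro r
    have h3 : ‖-twist χ σ r‖ < 1 := by
      rw [norm_neg]
      linarith [hhalf r]
    have h4 := Complex.norm_log_one_add_sub_self_le h3
    rw [← sub_eq_add_neg, norm_neg, sub_neg_eq_add] at h4
    have h5 : ‖-Complex.log (1 - twist χ σ r) - twist χ σ r‖ =
        ‖Complex.log (1 - twist χ σ r) + twist χ σ r‖ := by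
      rw [← norm_neg]
      congr 1
      ring
    rw [h5]
    refine h4.trans ?_
    have h6 : ‖twist χ σ r‖ ≤ ((r : ℕ) : ℝ) ^ (-1 : ℝ) := by
      refine (norm_twist_le χ h1 σ r).trans ?_
      have h2 : (2 : ℝ) ≤ ((r : ℕ) : ℝ) := by exact_mod_cast r.2.two_le
      exact Real.rpow_le_rpow_of_exponent_le (by linarith) (by linarith)
    have h7 : (1 - ‖twist χ σ r‖)⁻¹ ≤ 2 := by
      rw [inv_le_comm₀ (by linarith [hhalf r]) (by norm_num)]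
      linarith [hhalf r]
    have h8 : (((r : ℕ) : ℝ) ^ (-1 : ℝ)) ^ 2 = ((r : ℕ) : ℝ) ^ (-2 : ℝ) := by
      rw [← Real.rpow_natCast, ← Real.rpow_mul (Nat.cast_nonneg _)]
      norm_num
    have h9 : 0 ≤ ‖twist χ σ r‖ := norm_nonneg _
    have h10 : 0 ≤ (1 - ‖twist χ σ r‖)⁻¹ := inv_nonneg.2 (by linarith [hhalf r])
    rw [← h8]
    calc ‖twist χ σ r‖ ^ 2 * (1 - ‖twist χ σ r‖)⁻¹ / 2
        ≤ (((r : ℕ) : ℝ) ^ (-1 : ℝ)) ^ 2 * 2 / 2 := by gcongr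
      _ = _ := by ring
  -- summability
  have hsp : Summable (fun r : Nat.Primes => twist χ σ r) :=
    (hsum.comp_injective Nat.Primes.coe_nat_injective).of_norm
  obtain ⟨hsq, hsq2⟩ := sum_primes_sq
  have hsd : Summable (fun r : Nat.Primes => -Complex.log (1 - twist χ σ r) - twist χ σ r) :=
    Summable.of_norm_bounded hsq hterm
  have hsl : Summable (fun r : Nat.Primes => -Complex.log (1 - twist χ σ r)) := by
    have := hsd.add hsp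
    simpa using this
  have hre : ∀ r : Nat.Primes, (χ r).re * ((r : ℕ) : ℝ) ^ (-σ) = (twist χ σ r).re := by
    intro r
    show _ = (χ r * ((((r : ℕ) : ℝ) ^ (-σ) : ℝ) : ℂ)).re
    rw [Complex.re_mul_ofReal]
  have h11 : ∑' r : Nat.Primes, (χ r).re * ((r : ℕ) : ℝ) ^ (-σ) =
      (∑' r : Nat.Primes, twist χ σ r).re := by
    rw [Complex.re_tsum hsp]
    exact tsum_congr hre
  rw [h11, abs_sub_comm, ← Complex.sub_re, ← hsl.tsum_sub hsp]
  refine (Complex.abs_re_le_norm _).trans ?_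
  refine (norm_tsum_le_tsum_norm hsd.norm).trans ?_
  refine le_trans ?_ hsq2
  exact hsd.norm.tsum_le_tsum hterm hsq

end Pool.Agent.PowB
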