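import Pool.Agent.PowB.Dir
import Pool.Agent.PowB.LogS
import Pool.Agent.PowB.Chd

/-!
Sums over primes of the weights.
-/

set_option autoImplicit false

namespace Pool.Agent.PowB

open Pool.Agent.PowF Pool.Agent.CycSyl NumberField NumberTheorySymbols

/-! ### sums over the prime factors -/

theorem sum_inv_le (s : Finset ℕ) (hs : ∀ r ∈ s, 2 ≤ r) (h0 : s.Nonempty) :
    ∑ r ∈ s, (1 : ℝ) / r ≤ 1 + Real.log s.card := by
  classical
  have hn0 : 0 < s.card := Finset.card_pos.2 h0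
  have hn1 : (0 : ℝ) < (s.card : ℝ) := by exact_mod_cast hn0
  have h1 : ∑ r ∈ s.filter (fun r => r ≤ s.card), (1 : ℝ) / r ≤ Real.log s.card := by
    have h2 : ∑ r ∈ s.filter (fun r => r ≤ s.card), (1 : ℝ) / r ≤
        ∑ r ∈ Finset.Icc 2 s.card, (1 : ℝ) / r := by
      apply Finset.sum_le_sum_of_subset_of_nonneg
      · intro r hr
        rw [Finset.mem_filter] at hr
        exact Finset.mem_Icc.2 ⟨hs r hr.1, hr.2⟩
      · intro r _ _
        positivity
    have h3 : ∑ r ∈ Finset.Icc 1 s.card, (1 : ℝ) / r ≤ 1 + Real.log s.card := by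
      have h5 := harmonic_le_one_add_log s.card
      rw [harmonic_eq_sum_Icc] at h5
      push_cast at h5
      simpa [one_div] using h5
    have h4 : Finset.Icc 1 s.card = insert 1 (Finset.Icc 2 s.card) := by
      ext x
      simp only [Finset.mem_Icc, Finset.mem_insert]
      omega
    rw [h4, Finset.sum_insert (by simp)] at h3
    simp only [Nat.cast_one, div_one] at h3
    linarith
  have h6 : ∑ r ∈ s.filter (fun r => ¬ r ≤ s.card), (1 : ℝ) / r ≤ 1 := by
    have h7 : ∑ r ∈ s.filter (fun r => ¬ r ≤ s.card), (1 : ℝ) / r ≤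
        ∑ _r ∈ s.filter (fun r => ¬ r ≤ s.card), (1 : ℝ) / s.card := by
      apply Finset.sum_le_sum
      intro r hr
      rw [Finset.mem_filter] at hr
      have : (s.card : ℝ) ≤ r := by
        have := hr.2
        exact_mod_cast (by omega : s.card ≤ r)
      exact one_div_le_one_div_of_le hn1 this
    rw [Finset.sum_const, nsmul_eq_mul] at h7
    have h8 : ((s.filter (fun r => ¬ r ≤ s.card)).card : ℝ) ≤ s.card := by
      exact_mod_cast Finset.card_filter_le _ _
    calc _ ≤ _ := h7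
      _ ≤ (s.card : ℝ) * (1 / s.card) := by gcongr
      _ = 1 := by field_simp
  rw [← Finset.sum_filter_add_sum_filter_not s (fun r => r ≤ s.card)]
  linarith

theorem sum_div_primes {d : ℕ} (hd : 0 < d) :
    ∑ r ∈ d.primeFactors, (1 : ℝ) / r ≤ 2 + Real.log (1 + Real.log d) := by
  have hd1 : (1 : ℝ) ≤ d := by exact_mod_cast hd
  have hl : 0 ≤ Real.log d := Real.log_nonneg hd1
  have hl2 : 0 ≤ Real.log (1 + Real.log d) := Real.log_nonneg (by linarith)
  rcases d.primeFactors.eq_empty_or_nonempty with h | h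
  · rw [h, Finset.sum_empty]
    linarith
  have h1 := sum_inv_le d.primeFactors (fun r hr => (Nat.prime_of_mem_primeFactors hr).two_le) h
  have h2 : 2 ^ d.primeFactors.card ≤ d := by
    calc 2 ^ d.primeFactors.card ≤ ∏ r ∈ d.primeFactors, r :=
          Finset.pow_card_le_prod _ _ _ fun r hr => (Nat.prime_of_mem_primeFactors hr).two_le
      _ ≤ d := Nat.le_of_dvd hd (Nat.prod_primeFactors_dvd d)
  have hn0 : 0 < d.primeFactors.card := Finset.card_pos.2 h
  have hn1 : (0 : ℝ) < (d.primeFactors.card : ℝ) := by exact_mod_cast hn0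
  have h3 : (d.primeFactors.card : ℝ) * Real.log 2 ≤ Real.log d := by
    have : Real.log ((2 : ℝ) ^ d.primeFactors.card) ≤ Real.log d := by
      apply Real.log_le_log (by positivity)
      exact_mod_cast h2
    rwa [Real.log_pow] at this
  have h4 : (d.primeFactors.card : ℝ) ≤ 2 * (1 + Real.log d) := by
    have := Real.log_two_gt_d9
    nlinarith
  have h5 : Real.log (d.primeFactors.card : ℝ) ≤ Real.log 2 + Real.log (1 + Real.log d) := by
    rw [← Real.log_mul (by norm_num) (by positivity)]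
    exact Real.log_le_log hn1 h4
  have := Real.log_two_lt_d9
  linarith

/-! ### series over the primes -/

theorem summ {σ : ℝ} (hσ : 1 < σ) (g : Nat.Primes → ℝ) (hg : ∀ r, |g r| ≤ 1) :
    Summable (fun r : Nat.Primes => g r * ((r : ℕ) : ℝ) ^ (-σ)) := by
  have h := Nat.Primes.summable_rpow.2 (by linarith : -σ < -1)
  refine Summable.of_norm_bounded h fun r => ?_
  rw [norm_mul, Real.norm_eq_abs, Real.norm_of_nonneg (by positivity)]
  exact mul_le_of_le_one_left (by positivity) (hg r)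

theorem bad_sum (B : Finset ℕ) {σ : ℝ} (hσ : 1 < σ) :
    ∑' r : Nat.Primes, (if (r : ℕ) ∈ B then (1 : ℝ) else 0) * ((r : ℕ) : ℝ) ^ (-σ) ≤
      ∑ r ∈ B, (1 : ℝ) / r := by
  classical
  have hs : Summable (fun r : Nat.Primes =>
      (if (r : ℕ) ∈ B then (1 : ℝ) else 0) * ((r : ℕ) : ℝ) ^ (-σ)) := by
    apply summ hσ
    intro r
    split_ifs <;> simp
  refine hs.tsum_le_of_sum_le fun s => ?_
  have h1 : ∑ r ∈ s, (if (r : ℕ) ∈ B then (1 : ℝ) else 0) * ((r : ℕ) : ℝ) ^ (-σ) ≤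
      ∑ r ∈ s.filter (fun r : Nat.Primes => (r : ℕ) ∈ B), (1 : ℝ) / (r : ℕ) := by
    rw [Finset.sum_filter]
    apply Finset.sum_le_sum
    intro r _
    split_ifs with h
    · rw [one_mul, one_div, ← Real.rpow_neg_one]
      apply Real.rpow_le_rpow_of_exponent_le
      · exact_mod_cast r.2.one_lt.le
      · linarith
    · simp
  refine h1.trans ?_
  have h2 : ∑ r ∈ s.filter (fun r : Nat.Primes => (r : ℕ) ∈ B), (1 : ℝ) / (r : ℕ) =
      ∑ n ∈ (s.filter (fun r : Nat.Primes => (r : ℕ) ∈ B)).image (fun r : Nat.Primes => (r : ℕ)),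
        (1 : ℝ) / n := by
    rw [Finset.sum_image]
    intro a _ b _ hab
    exact Subtype.ext hab
  rw [h2]
  apply Finset.sum_le_sum_of_subset_of_nonneg
  · intro n hn
    rw [Finset.mem_image] at hn
    obtain ⟨r, hr, rfl⟩ := hn
    exact (Finset.mem_filter.1 hr).2
  · intro n _ _
    positivity

/-! ### the trivial character -/

/-- the constant function one -/
def oneN : ℕ →*₀ ℂ where
  toFun n := if n = 0 then 0 else 1
  map_zero' := by simp
  map_one' := by simp
  map_mul' a b := by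
    by_cases ha : a = 0
    · simp [ha]
    · by_cases hb : b = 0
      · simp [hb]
      · simp [ha, hb]

theorem zeta_lower {σ : ℝ} (hσ : 1 < σ) :
    1 / (σ - 1) ≤ ‖∑' n : ℕ, oneN n * (((n : ℝ) ^ (-σ) : ℝ) : ℂ)‖ := by
  have h0 : ∀ n : ℕ, oneN n * (((n : ℝ) ^ (-σ) : ℝ) : ℂ) = (((n : ℝ) ^ (-σ) : ℝ) : ℂ) := by
    intro n
    by_cases hn : n = 0
    · subst hn
      simp [Real.zero_rpow (by linarith : -σ ≠ 0)]
    · have : oneN n = 1 := by
        change (if n = 0 then (0 : ℂ) else 1) = 1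
        rw [if_neg hn]
      rw [this, one_mul]
  simp_rw [h0]
  rw [← Complex.ofReal_tsum, Complex.norm_real, Real.norm_eq_abs]
  refine le_trans ?_ (le_abs_self _)
  have hs : Summable (fun n : ℕ => (n : ℝ) ^ (-σ)) := Real.summable_nat_rpow.2 (by linarith)
  have h1 : ∀ N : ℕ, (1 - ((N : ℝ) + 1) ^ (1 - σ)) / (σ - 1) ≤ ∑' n : ℕ, (n : ℝ) ^ (-σ) := by
    intro N
    have hanti : AntitoneOn (fun x : ℝ => x ^ (-σ)) (Set.Icc (1 : ℝ) (1 + (N : ℕ))) := by
      intro x hx y _ hxy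
      exact Real.rpow_le_rpow_of_nonpos (by linarith [hx.1]) hxy (by linarith)
    have h2 := hanti.integral_le_sum
    rw [integral_rpow] at h2
    swap
    · right
      refine ⟨by linarith, ?_⟩
      rw [Set.uIcc_of_le (by linarith [(Nat.cast_nonneg N : (0 : ℝ) ≤ N)])]
      intro h
      linarith [h.1]
    have h3 : ∑ i ∈ Finset.range N, (1 + (i : ℕ) : ℝ) ^ (-σ) ≤ ∑' n : ℕ, (n : ℝ) ^ (-σ) := by
      have h4 : ∑ i ∈ Finset.range N, (1 + (i : ℕ) : ℝ) ^ (-σ) =
          ∑ i ∈ Finset.range N, (((i + 1 : ℕ) : ℝ)) ^ (-σ) := by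
        apply Finset.sum_congr rfl
        intro i _
        push_cast
        rw [add_comm]
      rw [h4]
      have h5 : ∑ i ∈ Finset.range (N + 1), (i : ℝ) ^ (-σ) =
          ∑ i ∈ Finset.range N, (((i + 1 : ℕ) : ℝ)) ^ (-σ) + ((0 : ℕ) : ℝ) ^ (-σ) :=
        Finset.sum_range_succ' _ _
      have h6 : 0 ≤ ((0 : ℕ) : ℝ) ^ (-σ) := by positivity
      have h7 := hs.sum_le_tsum (Finset.range (N + 1)) (fun i _ => by positivity)
      linarith
    refine le_trans (le_of_eq ?_) (h2.trans h3)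
    rw [Real.one_rpow, show -σ + 1 = -(σ - 1) by ring, div_neg, ← neg_div, neg_sub,
      show 1 - σ = -(σ - 1) by ring, add_comm (1 : ℝ)]
  have h2 : Filter.Tendsto (fun N : ℕ => (1 - ((N : ℝ) + 1) ^ (1 - σ)) / (σ - 1)) Filter.atTop
      (nhds ((1 - 0) / (σ - 1))) := by
    apply Filter.Tendsto.div_const
    apply Filter.Tendsto.sub tendsto_const_nhds
    have h3 := (tendsto_rpow_neg_atTop (by linarith : 0 < σ - 1)).comp
      (Filter.tendsto_atTop_add_const_right Filter.atTop (1 : ℝ)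
        (tendsto_natCast_atTop_atTop (R := ℝ)))
    refine h3.congr fun N => ?_
    simp only [Function.comp_apply]
    congr 1
    ring
  rw [sub_zero] at h2
  exact le_of_tendsto' h2 h1

/-! ### characters modulo `p` -/

/-- a Dirichlet character as a function on the natural numbers -/
noncomputable def psiN {p : ℕ} (hp : p.Prime) (ψ : DirichletCharacter ℂ p) : ℕ →*₀ ℂ where
  toFun n := ψ (n : ZMod p)
  map_zero' := by
    haveI := Fact.mk hp
    rw [Nat.cast_zero]
    exact ψ.map_zero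
  map_one' := by simp
  map_mul' a b := by simp

theorem psiN_apply {p : ℕ} (hp : p.Prime) (ψ : DirichletCharacter ℂ p) (n : ℕ) :
    psiN hp ψ n = ψ (n : ZMod p) := rfl

theorem psi_lower {p : ℕ} (hp : p.Prime) (ψ : DirichletCharacter ℂ p) (hψ : ψ ≠ 1) :
    ∃ c : ℝ, 0 < c ∧ ∀ σ : ℝ, 1 < σ → σ ≤ 2 →
      c ≤ ‖∑' n : ℕ, psiN hp ψ n * (((n : ℝ) ^ (-σ) : ℝ) : ℂ)‖ := by
  haveI := Fact.mk hp
  haveI : NeZero p := ⟨hp.ne_zero⟩
  have hcont : Continuous (fun σ : ℝ => ‖DirichletCharacter.LFunction ψ (σ : ℂ)‖) :=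
    ((DirichletCharacter.differentiable_LFunction hψ).continuous.comp
      Complex.continuous_ofReal).norm
  obtain ⟨σ₀, hσ₀, hmin⟩ := isCompact_Icc.exists_isMinOn (s := Set.Icc (1 : ℝ) 2)
    ⟨1, by norm_num, by norm_num⟩ hcont.continuousOn
  refine ⟨‖DirichletCharacter.LFunction ψ (σ₀ : ℂ)‖, ?_, ?_⟩
  · rw [norm_pos_iff]
    exact DirichletCharacter.LFunction_ne_zero_of_one_le_re ψ (Or.inl hψ) (by simpa using hσ₀.1)
  · intro σ h1 h2
    refine (hmin (Set.mem_Icc.2 ⟨h1.le, h2⟩)).trans ?_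
    simp only
    rw [DirichletCharacter.LFunction_eq_LSeries ψ (by simpa using h1), LSeries]
    apply le_of_eq
    congr 1
    apply tsum_congr
    intro n
    rw [LSeries.term_def]
    split_ifs with hn
    · subst hn
      simp
    · rw [psiN_apply, Complex.ofReal_cpow (Nat.cast_nonneg n), Complex.ofReal_neg,
        Complex.cpow_neg, Complex.ofReal_natCast, div_eq_mul_inv]

/-! ### the pointwise inequalities -/

theorem psi_re_le {p : ℕ} (ψ : DirichletCharacter ℂ p) (a : ZMod p) : |(ψ a).re| ≤ 1 :=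
  (Complex.abs_re_le_norm _).trans (ψ.norm_le_one a)

theorem fw_nonneg (p W : ℕ) (ψ : DirichletCharacter ℂ p) (r : ℕ) : 0 ≤ fw p W ψ r := by
  unfold fw
  have := abs_le.1 (psi_re_le ψ (r : ZMod p))
  split_ifs
  · linarith [this.1]
  · exact le_refl _

theorem fw_le_one (p W : ℕ) (ψ : DirichletCharacter ℂ p) (r : ℕ) : fw p W ψ r ≤ 1 := by
  unfold fw
  have := abs_le.1 (psi_re_le ψ (r : ZMod p))
  split_ifs
  · linarith [this.2]
  · norm_num

/-- the exceptional primes -/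
def bad (p W : ℕ) : Finset ℕ := (p * W).primeFactors

theorem not_bad {p W r : ℕ} (hp : p.Prime) (hW : 0 < W) (hr : r.Prime) (h : r ∉ bad p W) :
    ¬ p ∣ r ∧ ¬ r ∣ W := by
  have h1 : ¬ r ∣ p * W := by
    intro h2
    exact h (Nat.mem_primeFactors.2 ⟨hr, h2, (Nat.mul_pos hp.pos hW).ne'⟩)
  refine ⟨fun h2 => h1 ?_, fun h2 => h1 (dvd_mul_of_dvd_right h2 _)⟩
  rw [(Nat.prime_dvd_prime_iff_eq hp hr).1 h2]
  exact dvd_mul_right _ _

theorem point_lower {p W : ℕ} (hp : p.Prime) (hW : 0 < W)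
    (ψ : DirichletCharacter ℂ p) (hψ : ψ (-1) = -1) {r : ℕ} (hr : r.Prime) :
    1 / 2 + 1 / 2 * (ψ (r : ZMod p)).re - (if r ∈ bad p W then (1 : ℝ) else 0) ≤
      fw p W ψ r := by
  have h1 := abs_le.1 (psi_re_le ψ (r : ZMod p))
  by_cases hb : r ∈ bad p W
  · rw [if_pos hb]
    have := fw_nonneg p W ψ r
    linarith [h1.2]
  · rw [if_neg hb]
    obtain ⟨h2, h3⟩ := not_bad hp hW hr hb
    by_cases h4 : p ∣ r + 1
    · have h5 : (r : ZMod p) = -1 := by
        have h6 : ((r + 1 : ℕ) : ZMod p) = 0 := (ZMod.natCast_eq_zero_iff _ _).2 h4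
        push_cast at h6
        exact eq_neg_of_add_eq_zero_left h6
      rw [h5, hψ]
      have := fw_nonneg p W ψ r
      simp only [Complex.neg_re, Complex.one_re]
      linarith
    · have : fw p W ψ r = (1 + (ψ (r : ZMod p)).re) / 2 := by
        unfold fw
        rw [if_pos ⟨hr, h2, h4, h3⟩]
      rw [this]
      linarith

theorem weight_total {p W : ℕ} (hp : p.Prime) (hp2 : p ≠ 2) (hW : 0 < W)
    (ψ : DirichletCharacter ℂ p) (hψ : ψ (-1) = -1) : ∃ C : ℝ, ∀ σ : ℝ, 1 < σ → σ ≤ 2 →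
    1 / 2 * Real.log (1 / (σ - 1)) - C ≤
      ∑' r : Nat.Primes, fw p W ψ r * ((r : ℕ) : ℝ) ^ (-σ) := by
  have hψ1 : ψ ≠ 1 := by
    rintro rfl
    rw [MulChar.one_apply (isUnit_one.neg)] at hψ
    norm_num at hψ
  obtain ⟨c, hc, hlow⟩ := psi_lower hp ψ hψ1
  refine ⟨2 - 1 / 2 * Real.log c + ∑ r ∈ bad p W, (1 : ℝ) / r, fun σ h1 h2 => ?_⟩
  have ho := (log_bound oneN (fun n => by
    change ‖(if n = 0 then (0 : ℂ) else 1)‖ ≤ 1
    split_ifs <;> simp) h1).2
  have hq := (log_bound (psiN hp ψ) (fun n => ψ.norm_le_one _) h1).2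
  have ho1 : ∀ r : Nat.Primes, (oneN r).re = 1 := by
    intro r
    change (if (r : ℕ) = 0 then (0 : ℂ) else 1).re = 1
    rw [if_neg r.2.ne_zero, Complex.one_re]
  have hlo : Real.log (1 / (σ - 1)) ≤
      Real.log ‖∑' n : ℕ, oneN n * (((n : ℝ) ^ (-σ) : ℝ) : ℂ)‖ :=
    Real.log_le_log (by have : 0 < σ - 1 := by linarith
                        positivity) (zeta_lower h1)
  have hlq : Real.log c ≤
      Real.log ‖∑' n : ℕ, psiN hp ψ n * (((n : ℝ) ^ (-σ) : ℝ) : ℂ)‖ :=
    Real.log_le_log hc (hlow σ h1 h2)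
  have hbs := bad_sum (bad p W) h1
  have s1 := summ h1 (fun r : Nat.Primes => (oneN r).re) (fun r => by rw [ho1]; simp)
  have s2 := summ h1 (fun r : Nat.Primes => (psiN hp ψ r).re) (fun r => psi_re_le ψ _)
  have s3 := summ h1 (fun r : Nat.Primes => if (r : ℕ) ∈ bad p W then (1 : ℝ) else 0)
    (fun r => by split_ifs <;> simp)
  have s4 := summ h1 (fun r : Nat.Primes => fw p W ψ r) (fun r => by
    rw [abs_of_nonneg (fw_nonneg _ _ _ _)]
    exact fw_le_one _ _ _ _)
  have hle := Summable.tsum_le_tsum (f := fun r : Nat.Primes =>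
      1 / 2 * ((oneN r).re * ((r : ℕ) : ℝ) ^ (-σ)) +
      1 / 2 * ((psiN hp ψ r).re * ((r : ℕ) : ℝ) ^ (-σ)) -
      (if (r : ℕ) ∈ bad p W then (1 : ℝ) else 0) * ((r : ℕ) : ℝ) ^ (-σ))
    (g := fun r : Nat.Primes => fw p W ψ r * ((r : ℕ) : ℝ) ^ (-σ)) (fun r => by
      have h3 := point_lower hp hW ψ hψ r.2
      have h4 : (0 : ℝ) ≤ ((r : ℕ) : ℝ) ^ (-σ) := by positivity
      have h5 := mul_le_mul_of_nonneg_right h3 h4
      have h6 := ho1 r
      have h7 : psiN hp ψ (r : ℕ) = ψ ((r : ℕ) : ZMod p) := rfl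
      rw [h6, h7]
      linarith) (((s1.mul_left _).add (s2.mul_left _)).sub s3) s4
  rw [Summable.tsum_sub ((s1.mul_left _).add (s2.mul_left _)) s3,
    Summable.tsum_add (s1.mul_left _) (s2.mul_left _), tsum_mul_left, tsum_mul_left] at hle
  have ho' := (abs_le.1 ho).1
  have hq' := (abs_le.1 hq).1
  linarith

theorem point_inert {p W d : ℕ} (hp : p.Prime) (hW : 0 < W) (hd : 0 < d)
    (ψ : DirichletCharacter ℂ p) (hψ : ψ (-1) = -1) {r : ℕ} (hr : r.Prime) :
    1 / 2 * fw p W ψ r - 1 / 4 * (chd p d 1 r).re - 1 / 4 * (chd p d ψ r).re -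
      1 / 2 * (if r ∈ bad p W then (1 : ℝ) else 0) -
      1 / 2 * (if r ∈ (2 * d).primeFactors then (1 : ℝ) else 0) ≤
      if J(-(d : ℤ) | r) = -1 then fw p W ψ r else 0 := by
  have hb0 : (0 : ℝ) ≤ (if r ∈ bad p W then (1 : ℝ) else 0) := by split_ifs <;> norm_num
  have hc0 : (0 : ℝ) ≤ (if r ∈ (2 * d).primeFactors then (1 : ℝ) else 0) := by
    split_ifs <;> norm_num
  have hf0 := fw_nonneg p W ψ r
  have hf1 := fw_le_one p W ψ r
  have hT : (0 : ℝ) ≤ if J(-(d : ℤ) | r) = -1 then fw p W ψ r else 0 := by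
    split_ifs
    · exact hf0
    · exact le_refl _
  have hre := abs_le.1 (psi_re_le ψ (r : ZMod p))
  by_cases h2d : r ∣ 2 * d
  · have hmem : r ∈ (2 * d).primeFactors := Nat.mem_primeFactors.2 ⟨hr, h2d, by omega⟩
    have hz : ∀ χ : DirichletCharacter ℂ p, chd p d χ r = 0 := by
      intro χ
      change (if r % 2 = 1 then ((J(-(d : ℤ) | r) : ℤ) : ℂ) * χ (r : ZMod p) else 0) = 0
      split_ifs with hodd
      · have hrd : r ∣ d := by
          rcases (Nat.Prime.dvd_mul hr).1 h2d with h | h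
          · have := (Nat.prime_dvd_prime_iff_eq hr Nat.prime_two).1 h
            omega
          · exact h
        have hJ : J(-(d : ℤ) | r) = 0 := by
          haveI : NeZero r := ⟨hr.ne_zero⟩
          rw [jacobiSym.eq_zero_iff_not_coprime]
          intro h
          have h3 : (r : ℤ) ∣ (Int.gcd (-(d : ℤ)) (r : ℤ) : ℤ) := by
            apply Int.dvd_coe_gcd
            · exact (Int.natCast_dvd_natCast.2 hrd).neg_right
            · exact dvd_refl _
          rw [h] at h3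
          have h4 : r ∣ 1 := by exact_mod_cast h3
          exact hr.one_lt.ne' (Nat.dvd_one.1 h4)
        rw [hJ]
        simp
      · rfl
    rw [hz, hz, if_pos hmem, Complex.zero_re]
    linarith
  · have h2 : r % 2 = 1 := by
      rcases Nat.mod_two_eq_zero_or_one r with h | h
      · exfalso
        have h3 : 2 ∣ r := Nat.dvd_of_mod_eq_zero h
        have h4 := (Nat.prime_dvd_prime_iff_eq Nat.prime_two hr).1 h3
        exact h2d (h4 ▸ dvd_mul_right _ _)
      · exact h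
    have hrd : ¬ r ∣ d := fun h => h2d (dvd_mul_of_dvd_right h _)
    have hJ : J(-(d : ℤ) | r) = 1 ∨ J(-(d : ℤ) | r) = -1 := by
      apply jacobiSym.eq_one_or_neg_one
      rw [Int.neg_gcd, Int.gcd_natCast_natCast]
      exact ((Nat.Prime.coprime_iff_not_dvd hr).2 hrd).symm
    have hch : ∀ χ : DirichletCharacter ℂ p,
        (chd p d χ r).re = ((J(-(d : ℤ) | r) : ℤ) : ℝ) * (χ (r : ZMod p)).re := by
      intro χ
      change (if r % 2 = 1 then ((J(-(d : ℤ) | r) : ℤ) : ℂ) * χ (r : ZMod p) else 0).re = _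
      rw [if_pos h2, Complex.mul_re]
      simp
    have hmem : r ∉ (2 * d).primeFactors := fun h => h2d (Nat.dvd_of_mem_primeFactors h)
    rw [if_neg hmem, hch, hch]
    have h1le : ((1 : DirichletCharacter ℂ p) (r : ZMod p)).re ≤ 1 :=
      (abs_le.1 (psi_re_le 1 (r : ZMod p))).2
    rcases hJ with hJ | hJ
    · rw [hJ, if_neg (show ¬ ((1 : ℤ) = -1) by norm_num)]
      simp only [Int.cast_one, one_mul]
      by_cases hpr : p ∣ r
      · have h0 : (r : ZMod p) = 0 := (ZMod.natCast_eq_zero_iff _ _).2 hpr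
        have hfz : fw p W ψ r = 0 := by
          unfold fw
          rw [if_neg (fun h => h.2.1 hpr)]
        haveI := Fact.mk hp
        rw [h0, hfz, ψ.map_zero, (1 : DirichletCharacter ℂ p).map_zero]
        simp only [Complex.zero_re]
        linarith
      · have h1 : (1 : DirichletCharacter ℂ p) (r : ZMod p) = 1 := by
          apply MulChar.one_apply
          rw [ZMod.isUnit_iff_coprime]
          exact ((Nat.Prime.coprime_iff_not_dvd hp).2 hpr).symm
        rw [h1, Complex.one_re]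
        by_cases hA : Al p W r
        · have : fw p W ψ r = (1 + (ψ (r : ZMod p)).re) / 2 := by
            unfold fw
            rw [if_pos hA]
          rw [this]
          linarith
        · have : fw p W ψ r = 0 := by
            unfold fw
            rw [if_neg hA]
          rw [this]
          linarith [hre.1]
    · rw [hJ, if_pos rfl]
      have := point_lower hp hW ψ hψ hr
      push_cast
      linarith

theorem chd_sum_le {p d : ℕ} (hp : p.Prime) (hp2 : p ≠ 2) (hd : 0 < d) (hpd : ¬ p ∣ d)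
    (ψ : DirichletCharacter ℂ p) {σ : ℝ} (hσ : 1 < σ) :
    ∑' r : Nat.Primes, (chd p d ψ r).re * ((r : ℕ) : ℝ) ^ (-σ) ≤
      Real.log (Real.log (4 * p) + 4) + Real.log (1 + Real.log d) + 2 := by
  obtain ⟨hne, hab⟩ := log_bound (chd p d ψ) (chd_norm hp ψ) hσ
  have hM : 1 ≤ 4 * d * p := Nat.mul_pos (Nat.mul_pos (by norm_num) hd) hp.pos
  have hb := dirichlet_bound (chd p d ψ) (map_zero _) (chd_norm hp ψ) (4 * d * p) hM
    (chd_partial hp hp2 hd hpd ψ) hσ
  have hd1 : (1 : ℝ) ≤ d := by exact_mod_cast hd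
  have hp1 : (1 : ℝ) ≤ p := by exact_mod_cast hp.one_lt.le
  have hld : 0 ≤ Real.log d := Real.log_nonneg hd1
  have hlp : 0 ≤ Real.log (4 * p) := Real.log_nonneg (by linarith)
  have hlM : Real.log ((4 * d * p : ℕ) : ℝ) = Real.log (4 * p) + Real.log d := by
    rw [← Real.log_mul (by positivity) (by positivity)]
    congr 1
    push_cast
    ring
  rw [hlM] at hb
  have h1 : Real.log ‖∑' n : ℕ, chd p d ψ n * (((n : ℝ) ^ (-σ) : ℝ) : ℂ)‖ ≤
      Real.log ((Real.log (4 * p) + 4) * (1 + Real.log d)) := by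
    apply Real.log_le_log (norm_pos_iff.2 hne)
    nlinarith
  rw [Real.log_mul (by positivity) (by positivity)] at h1
  have h2 := (abs_le.1 hab).2
  linarith

theorem weight_inert {p W : ℕ} (hp : p.Prime) (hp2 : p ≠ 2) (hW : 0 < W)
    (ψ : DirichletCharacter ℂ p) (hψ : ψ (-1) = -1) : ∃ C : ℝ, 0 < C ∧ ∀ σ : ℝ, 1 < σ → σ ≤ 2 →
    ∀ d : ℕ, 0 < d → ¬ p ∣ d →
    1 / 4 * Real.log (1 / (σ - 1)) - C * (1 + Real.log (1 + Real.log d)) ≤
      ∑' r : Nat.Primes, (if J(-(d : ℤ) | (r : ℕ)) = -1 then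
        fw p W ψ r * ((r : ℕ) : ℝ) ^ (-σ) else 0) := by
  obtain ⟨C₁, hC₁⟩ := weight_total hp hp2 hW ψ hψ
  have hp1 : (1 : ℝ) ≤ p := by exact_mod_cast hp.one_lt.le
  have hlp : 0 ≤ Real.log (4 * p) := Real.log_nonneg (by linarith)
  have hA : 0 ≤ Real.log (Real.log (4 * p) + 4) := Real.log_nonneg (by linarith)
  have hB : 0 ≤ ∑ r ∈ bad p W, (1 : ℝ) / r := Finset.sum_nonneg fun r _ => by positivity
  refine ⟨|C₁| / 2 + 1 / 2 * Real.log (Real.log (4 * p) + 4) +
    1 / 2 * ∑ r ∈ bad p W, (1 : ℝ) / r + 5 / 2, by positivity, fun σ h1 h2 d hd hpd => ?_⟩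
  have hd1 : (1 : ℝ) ≤ d := by exact_mod_cast hd
  have hld : 0 ≤ Real.log d := Real.log_nonneg hd1
  have hl : 0 ≤ Real.log (1 + Real.log d) := Real.log_nonneg (by linarith)
  have t0 := hC₁ σ h1 h2
  have t1 := chd_sum_le hp hp2 hd hpd 1 h1
  have t2 := chd_sum_le hp hp2 hd hpd ψ h1
  have t3 := bad_sum (bad p W) h1
  have t4 := bad_sum (2 * d).primeFactors h1
  have t5 := sum_div_primes (d := 2 * d) (by omega)
  have t6 : Real.log (1 + Real.log ((2 * d : ℕ) : ℝ)) ≤ 1 + Real.log (1 + Real.log d) := by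
    have h3 : Real.log ((2 * d : ℕ) : ℝ) = Real.log 2 + Real.log d := by
      rw [← Real.log_mul (by norm_num) (by positivity)]
      congr 1
      push_cast
      ring
    have h4 : Real.log (2 * (1 + Real.log d)) = Real.log 2 + Real.log (1 + Real.log d) :=
      Real.log_mul (by norm_num) (by positivity)
    have h5 := Real.log_two_lt_d9
    have h6 := Real.log_two_gt_d9
    have h7 : Real.log (1 + Real.log ((2 * d : ℕ) : ℝ)) ≤ Real.log (2 * (1 + Real.log d)) := by
      rw [h3]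
      apply Real.log_le_log (by positivity)
      linarith
    linarith
  have s1 := summ h1 (fun r : Nat.Primes => (chd p d 1 r).re) (fun r =>
    (Complex.abs_re_le_norm _).trans (chd_norm hp 1 _))
  have s2 := summ h1 (fun r : Nat.Primes => (chd p d ψ r).re) (fun r =>
    (Complex.abs_re_le_norm _).trans (chd_norm hp ψ _))
  have s3 := summ h1 (fun r : Nat.Primes => if (r : ℕ) ∈ bad p W then (1 : ℝ) else 0)
    (fun r => by split_ifs <;> simp)
  have s5 := summ h1 (fun r : Nat.Primes =>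
    if (r : ℕ) ∈ (2 * d).primeFactors then (1 : ℝ) else 0) (fun r => by split_ifs <;> simp)
  have s4 := summ h1 (fun r : Nat.Primes => fw p W ψ r) (fun r => by
    rw [abs_of_nonneg (fw_nonneg _ _ _ _)]
    exact fw_le_one _ _ _ _)
  have s6 := summ h1 (fun r : Nat.Primes =>
    if J(-(d : ℤ) | (r : ℕ)) = -1 then fw p W ψ r else 0) (fun r => by
    split_ifs
    · rw [abs_of_nonneg (fw_nonneg _ _ _ _)]
      exact fw_le_one _ _ _ _
    · simp)
  have hle := Summable.tsum_le_tsum (f := fun r : Nat.Primes =>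
      1 / 2 * (fw p W ψ r * ((r : ℕ) : ℝ) ^ (-σ)) -
      1 / 4 * ((chd p d 1 r).re * ((r : ℕ) : ℝ) ^ (-σ)) -
      1 / 4 * ((chd p d ψ r).re * ((r : ℕ) : ℝ) ^ (-σ)) -
      1 / 2 * ((if (r : ℕ) ∈ bad p W then (1 : ℝ) else 0) * ((r : ℕ) : ℝ) ^ (-σ)) -
      1 / 2 * ((if (r : ℕ) ∈ (2 * d).primeFactors then (1 : ℝ) else 0) *
        ((r : ℕ) : ℝ) ^ (-σ)))
    (g := fun r : Nat.Primes => (if J(-(d : ℤ) | (r : ℕ)) = -1 then fw p W ψ r else 0) *
      ((r : ℕ) : ℝ) ^ (-σ)) (fun r => by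
      have h3 := point_inert hp hW hd ψ hψ r.2
      have h4 : (0 : ℝ) ≤ ((r : ℕ) : ℝ) ^ (-σ) := by positivity
      have h5 := mul_le_mul_of_nonneg_right h3 h4
      linarith)
    (((((s4.mul_left _).sub (s1.mul_left _)).sub (s2.mul_left _)).sub (s3.mul_left _)).sub
      (s5.mul_left _)) s6
  rw [Summable.tsum_sub ((((s4.mul_left _).sub (s1.mul_left _)).sub (s2.mul_left _)).sub
      (s3.mul_left _)) (s5.mul_left _),
    Summable.tsum_sub (((s4.mul_left _).sub (s1.mul_left _)).sub (s2.mul_left _))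
      (s3.mul_left _),
    Summable.tsum_sub ((s4.mul_left _).sub (s1.mul_left _)) (s2.mul_left _),
    Summable.tsum_sub (s4.mul_left _) (s1.mul_left _), tsum_mul_left, tsum_mul_left,
    tsum_mul_left, tsum_mul_left, tsum_mul_left] at hle
  have hfin : (∑' r : Nat.Primes, (if J(-(d : ℤ) | (r : ℕ)) = -1 then fw p W ψ r else 0) *
      ((r : ℕ) : ℝ) ^ (-σ)) = ∑' r : Nat.Primes, (if J(-(d : ℤ) | (r : ℕ)) = -1 then
        fw p W ψ r * ((r : ℕ) : ℝ) ^ (-σ) else 0) := by
    apply tsum_congr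
    intro r
    rw [ite_mul, zero_mul]
  rw [← hfin]
  refine le_trans ?_ hle
  have h8 := le_abs_self C₁
  have h9 : 0 ≤ (|C₁| / 2 + 1 / 2 * Real.log (Real.log (4 * p) + 4) +
    1 / 2 * ∑ r ∈ bad p W, (1 : ℝ) / r + 3 / 2) * Real.log (1 + Real.log d) := by positivity
  nlinarith

end Pool.Agent.PowB
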