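import Pool.Agent.PowB.Defs
import Pool.Agent.PowB.Sums
import Pool.Agent.PowB.LogS

/-!
The weights of the primes.
-/

set_option autoImplicit false

namespace Pool.Agent.PowB

open Pool.Agent.PowF Pool.Agent.CycSyl NumberField NumberTheorySymbols

theorem fw_of_not (p W : ℕ) (ψ : DirichletCharacter ℂ p) (r : ℕ) (h : ¬ Al p W r) :
    fw p W ψ r = 0 := by
  unfold fw
  rw [if_neg h]

/-- lower bound for a product -/
theorem prod_ge_exp (P : Finset ℕ) (hP : ∀ r ∈ P, r.Prime) (x : ℕ → ℝ)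
    (hx : ∀ r ∈ P, 0 ≤ x r ∧ x r ≤ (r : ℝ) ^ (-1 : ℝ)) :
    Real.exp ((∑ r ∈ P, x r) - 2) ≤ ∏ r ∈ P, (1 + x r) := by
  have h1 : ∀ r ∈ P, Real.exp (x r - x r ^ 2) ≤ 1 + x r := by
    intro r hr
    have h2 := Real.one_sub_inv_le_log_of_pos (x := 1 + x r) (by linarith [(hx r hr).1])
    have h3 : x r - x r ^ 2 ≤ 1 - (1 + x r)⁻¹ := by
      have h4 : 0 < 1 + x r := by linarith [(hx r hr).1]
      have h5 : 1 - (1 + x r)⁻¹ = x r / (1 + x r) := by field_simp; ring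
      rw [h5, le_div_iff₀ h4]
      nlinarith [pow_nonneg (hx r hr).1 3]
    have h6 : 0 < 1 + x r := by linarith [(hx r hr).1]
    rw [← Real.le_log_iff_exp_le h6]
    linarith
  have h7 : ∑ r ∈ P, x r ^ 2 ≤ 2 := by
    obtain ⟨hs, h8⟩ := sum_primes_sq
    refine le_trans ?_ h8
    have h9 : ∑ r ∈ P, x r ^ 2 ≤
        ∑ r ∈ (P.subtype Nat.Prime : Finset Nat.Primes), (((r : ℕ) : ℝ) ^ (-2 : ℝ)) := by
      have h10 : ∑ r ∈ (P.subtype Nat.Prime : Finset Nat.Primes), (((r : ℕ) : ℝ) ^ (-2 : ℝ)) =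
          ∑ r ∈ P, ((r : ℝ) ^ (-2 : ℝ)) := by
        have := Finset.sum_subtype_of_mem (s := P) (fun r : ℕ => ((r : ℝ) ^ (-2 : ℝ))) hP
        exact this
      rw [h10]
      apply Finset.sum_le_sum
      intro r hr
      have h11 : (r : ℝ) ^ (-2 : ℝ) = ((r : ℝ) ^ (-1 : ℝ)) ^ 2 := by
        rw [← Real.rpow_natCast, ← Real.rpow_mul (Nat.cast_nonneg _)]
        norm_num
      rw [h11]
      exact pow_le_pow_left₀ (hx r hr).1 (hx r hr).2 2
    have h12 : ∀ S : Finset Nat.Primes, ∑ r ∈ S, (((r : ℕ) : ℝ) ^ (-2 : ℝ)) ≤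
        ∑' r : Nat.Primes, (((r : ℕ) : ℝ) ^ (-2 : ℝ)) := fun S =>
      hs.sum_le_tsum S (fun r _ => Real.rpow_nonneg (Nat.cast_nonneg _) _)
    exact h9.trans (h12 _)
  calc Real.exp ((∑ r ∈ P, x r) - 2) ≤ Real.exp (∑ r ∈ P, (x r - x r ^ 2)) := by
        apply Real.exp_le_exp.2
        rw [Finset.sum_sub_distrib]
        linarith
    _ = ∏ r ∈ P, Real.exp (x r - x r ^ 2) := Real.exp_sum _ _
    _ ≤ _ := Finset.prod_le_prod (fun r _ => (Real.exp_pos _).le) h1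

/-- the weights -/
theorem weights {p W : ℕ} (hp : p.Prime) (hp2 : p ≠ 2) (hW : 0 < W) :
    ∃ (f : ℕ → ℝ) (C : ℝ), (∀ r, 0 ≤ f r ∧ f r ≤ 1) ∧ 0 < C ∧ ∀ σ : ℝ, 1 < σ → σ ≤ 2 →
      ∃ P : Finset ℕ, (∀ r ∈ P, Al p W r) ∧
        Real.exp (-C) * (σ - 1) ^ (-(1 / 2) : ℝ) ≤ ∏ r ∈ P, (1 + f r * (r : ℝ) ^ (-σ)) ∧
        ∀ d : ℕ, 0 < d → ¬ p ∣ d →
          ∏ r ∈ P.filter (fun r : ℕ => J(-(d : ℤ) | r) ≠ -1), (1 + f r * (r : ℝ) ^ (-σ)) ≤
            (Real.exp C * (σ - 1) ^ (1 / 4 : ℝ) * (1 + Real.log d) ^ C) *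
              ∏ r ∈ P, (1 + f r * (r : ℝ) ^ (-σ)) := by
  classical
  obtain ⟨ψ, hψ⟩ := exists_odd_char hp hp2
  obtain ⟨C1, hC1⟩ := weight_total hp hp2 hW ψ hψ
  obtain ⟨C2, hC2, hC3⟩ := weight_inert hp hp2 hW ψ hψ
  set C : ℝ := |C1| + C2 + 3 with hC
  have hC1' : C1 ≤ |C1| := le_abs_self _
  have hC1'' : 0 ≤ |C1| := abs_nonneg _
  refine ⟨fw p W ψ, C, fun r => ⟨fw_nonneg p W ψ r, fw_le_one p W ψ r⟩, by linarith, ?_⟩
  intro σ hσ hσ2
  have hs0 : Summable (fun n : ℕ => ((n : ℝ) ^ (-σ))) := Real.summable_nat_rpow.2 (by linarith)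
  have hs0p : Summable (fun r : Nat.Primes => (((r : ℕ) : ℝ) ^ (-σ))) :=
    hs0.comp_injective Nat.Primes.coe_nat_injective
  -- a finite set of primes with a small tail
  obtain ⟨Q, hQ⟩ : ∃ Q : Finset Nat.Primes, ∑' r : Nat.Primes, (((r : ℕ) : ℝ) ^ (-σ)) - 1 ≤
      ∑ r ∈ Q, (((r : ℕ) : ℝ) ^ (-σ)) := by
    have h1 := hs0p.hasSum.eventually (lt_mem_nhds (sub_one_lt _))
    obtain ⟨Q, hQ⟩ := h1.exists
    exact ⟨Q, hQ.le⟩
  set P : Finset ℕ := (Q.image (fun r : Nat.Primes => (r : ℕ))).filter (fun r => Al p W r) with hP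
  have hPal : ∀ r ∈ P, Al p W r := fun r hr => (Finset.mem_filter.1 hr).2
  -- sums over P against infinite sums
  have htail : ∀ y : ℕ → ℝ, (∀ r, 0 ≤ y r ∧ y r ≤ fw p W ψ r * (r : ℝ) ^ (-σ)) →
      ∑' r : Nat.Primes, y r - 1 ≤ ∑ r ∈ P, y r := by
    intro y hy
    have hy1 : ∀ r : ℕ, y r ≤ (r : ℝ) ^ (-σ) := by
      intro r
      refine (hy r).2.trans ?_
      have h2 : (0 : ℝ) ≤ (r : ℝ) ^ (-σ) := Real.rpow_nonneg (Nat.cast_nonneg r) _
      calc fw p W ψ r * (r : ℝ) ^ (-σ) ≤ 1 * (r : ℝ) ^ (-σ) :=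
            mul_le_mul_of_nonneg_right (fw_le_one p W ψ r) h2
        _ = _ := one_mul _
    have hys : Summable (fun r : Nat.Primes => y r) :=
      Summable.of_nonneg_of_le (fun r => (hy r).1) (fun r => hy1 r) hs0p
    have hdiff : Summable (fun r : Nat.Primes => ((r : ℕ) : ℝ) ^ (-σ) - y r) := hs0p.sub hys
    have h3 : ∑ r ∈ Q, (((r : ℕ) : ℝ) ^ (-σ) - y r) ≤
        ∑' r : Nat.Primes, (((r : ℕ) : ℝ) ^ (-σ) - y r) :=
      hdiff.sum_le_tsum Q (fun r _ => sub_nonneg.2 (hy1 r))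
    rw [hs0p.tsum_sub hys, Finset.sum_sub_distrib] at h3
    have h4 : ∑ r ∈ Q, y r = ∑ r ∈ P, y r := by
      rw [hP, Finset.sum_filter, Finset.sum_image (g := fun r : Nat.Primes => (r : ℕ))
        (fun a _ b _ h => Nat.Primes.coe_nat_injective h)]
      refine Finset.sum_congr rfl (fun r _ => ?_)
      split_ifs with h5
      · rfl
      · have h6 := (hy r).2
        rw [fw_of_not p W ψ r h5, zero_mul] at h6
        exact le_antisymm h6 (hy r).1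
    linarith
  clear_value P
  have hx : ∀ r ∈ P, 0 ≤ fw p W ψ r * (r : ℝ) ^ (-σ) ∧
      fw p W ψ r * (r : ℝ) ^ (-σ) ≤ (r : ℝ) ^ (-1 : ℝ) := by
    intro r hr
    have h2 : (0 : ℝ) ≤ (r : ℝ) ^ (-σ) := Real.rpow_nonneg (Nat.cast_nonneg r) _
    refine ⟨mul_nonneg (fw_nonneg p W ψ r) h2, ?_⟩
    have h3 : (1 : ℝ) ≤ r := by exact_mod_cast (hPal r hr).1.one_lt.le
    calc fw p W ψ r * (r : ℝ) ^ (-σ) ≤ 1 * (r : ℝ) ^ (-σ) :=
          mul_le_mul_of_nonneg_right (fw_le_one p W ψ r) h2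
      _ = (r : ℝ) ^ (-σ) := one_mul _
      _ ≤ _ := Real.rpow_le_rpow_of_exponent_le h3 (by linarith)
  have hε : 0 < σ - 1 := by linarith
  refine ⟨P, hPal, ?_, ?_⟩
  · have h1 := prod_ge_exp P (fun r hr => (hPal r hr).1) _ hx
    refine le_trans ?_ h1
    have h2 := htail (fun r => fw p W ψ r * (r : ℝ) ^ (-σ)) (fun r => ⟨mul_nonneg
      (fw_nonneg p W ψ r) (Real.rpow_nonneg (Nat.cast_nonneg r) _), le_rfl⟩)
    have h3 := hC1 σ hσ hσ2
    rw [Real.rpow_def_of_pos hε, ← Real.exp_add]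
    apply Real.exp_le_exp.2
    rw [one_div (σ - 1), Real.log_inv] at h3
    linarith
  · intro d hd hpd
    have hsplit := Finset.prod_filter_mul_prod_filter_not P
      (fun r : ℕ => J(-(d : ℤ) | r) ≠ -1) (fun r => 1 + fw p W ψ r * (r : ℝ) ^ (-σ))
    have hpos : ∀ S : Finset ℕ, S ⊆ P → 0 < ∏ r ∈ S, (1 + fw p W ψ r * (r : ℝ) ^ (-σ)) := by
      intro S hS
      apply Finset.prod_pos
      intro r hr
      linarith [(hx r (hS hr)).1]
    have h1 := prod_ge_exp (P.filter (fun r : ℕ => ¬ J(-(d : ℤ) | r) ≠ -1))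
      (fun r hr => (hPal r (Finset.mem_filter.1 hr).1).1)
      (fun r => fw p W ψ r * (r : ℝ) ^ (-σ)) (fun r hr => hx r (Finset.mem_filter.1 hr).1)
    have h2 := htail (fun r : ℕ => if J(-(d : ℤ) | r) = -1 then fw p W ψ r * (r : ℝ) ^ (-σ) else 0)
      (fun r => by
        have h3 : 0 ≤ fw p W ψ r * (r : ℝ) ^ (-σ) := mul_nonneg
          (fw_nonneg p W ψ r) (Real.rpow_nonneg (Nat.cast_nonneg r) _)
        split_ifs
        · exact ⟨h3, le_rfl⟩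
        · exact ⟨le_rfl, h3⟩)
    have h3 := hC3 σ hσ hσ2 d hd hpd
    have h4 : ∑ r ∈ P, (if J(-(d : ℤ) | r) = -1 then fw p W ψ r * (r : ℝ) ^ (-σ) else 0) =
        ∑ r ∈ P.filter (fun r : ℕ => ¬ J(-(d : ℤ) | r) ≠ -1), fw p W ψ r * (r : ℝ) ^ (-σ) := by
      rw [Finset.sum_filter]
      refine Finset.sum_congr rfl (fun r _ => ?_)
      simp
    rw [h4] at h2
    have hd1 : (1 : ℝ) ≤ d := by exact_mod_cast hd
    have hld : 0 ≤ Real.log d := Real.log_nonneg hd1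
    have hl2 : 0 ≤ Real.log (1 + Real.log d) := Real.log_nonneg (by linarith)
    -- the inert product is large
    have h5 : Real.exp (-C) * (σ - 1) ^ (-(1 / 4) : ℝ) * (1 + Real.log d) ^ (-C) ≤
        ∏ r ∈ P.filter (fun r : ℕ => ¬ J(-(d : ℤ) | r) ≠ -1),
          (1 + fw p W ψ r * (r : ℝ) ^ (-σ)) := by
      refine le_trans ?_ h1
      rw [Real.rpow_def_of_pos hε, Real.rpow_def_of_pos (by linarith : (0 : ℝ) < 1 + Real.log d),
        ← Real.exp_add, ← Real.exp_add]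
      apply Real.exp_le_exp.2
      rw [one_div (σ - 1), Real.log_inv] at h3
      have h6 : C2 * (1 + Real.log (1 + Real.log d)) ≤
          C - 3 + Real.log (1 + Real.log d) * C := by
        have h7 : C2 ≤ C - 3 := by rw [hC]; linarith
        nlinarith
      linarith
    have h6 : (Real.exp C * (σ - 1) ^ (1 / 4 : ℝ) * (1 + Real.log d) ^ C) *
        (Real.exp (-C) * (σ - 1) ^ (-(1 / 4) : ℝ) * (1 + Real.log d) ^ (-C)) = 1 := by
      have e1 : Real.exp C * Real.exp (-C) = 1 := by rw [← Real.exp_add]; simp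
      have e2 : (σ - 1) ^ (1 / 4 : ℝ) * (σ - 1) ^ (-(1 / 4) : ℝ) = 1 := by
        rw [← Real.rpow_add hε]; simp
      have e3 : (1 + Real.log d) ^ C * (1 + Real.log d) ^ (-C) = 1 := by
        rw [← Real.rpow_add (by linarith)]; simp
      calc _ = (Real.exp C * Real.exp (-C)) * ((σ - 1) ^ (1 / 4 : ℝ) * (σ - 1) ^ (-(1 / 4) : ℝ)) *
            ((1 + Real.log d) ^ C * (1 + Real.log d) ^ (-C)) := by ring
        _ = 1 := by rw [e1, e2, e3]; norm_num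
    have hA := hpos _ (Finset.filter_subset (fun r : ℕ => J(-(d : ℤ) | r) ≠ -1) P)
    have hK : (0 : ℝ) ≤ Real.exp C * (σ - 1) ^ (1 / 4 : ℝ) * (1 + Real.log d) ^ C := by
      positivity
    rw [← hsplit]
    calc ∏ r ∈ P.filter (fun r : ℕ => J(-(d : ℤ) | r) ≠ -1), (1 + fw p W ψ r * (r : ℝ) ^ (-σ))
        = ((Real.exp C * (σ - 1) ^ (1 / 4 : ℝ) * (1 + Real.log d) ^ C) *
          (Real.exp (-C) * (σ - 1) ^ (-(1 / 4) : ℝ) * (1 + Real.log d) ^ (-C))) *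
          ∏ r ∈ P.filter (fun r : ℕ => J(-(d : ℤ) | r) ≠ -1),
            (1 + fw p W ψ r * (r : ℝ) ^ (-σ)) := by rw [h6, one_mul]
      _ = (Real.exp C * (σ - 1) ^ (1 / 4 : ℝ) * (1 + Real.log d) ^ C) *
          ((∏ r ∈ P.filter (fun r : ℕ => J(-(d : ℤ) | r) ≠ -1),
            (1 + fw p W ψ r * (r : ℝ) ^ (-σ))) *
          (Real.exp (-C) * (σ - 1) ^ (-(1 / 4) : ℝ) * (1 + Real.log d) ^ (-C))) := by ring
      _ ≤ _ := by
          apply mul_le_mul_of_nonneg_left _ hK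
          exact mul_le_mul_of_nonneg_left h5 hA.le

end Pool.Agent.PowB
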