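import Pool.Agent.PowB.Defs
import Pool.Agent.PowB.Split
import Pool.Agent.PowB.Weights
import Pool.Agent.PowB.Layer

/-!
Part (B): the final argument.
-/

set_option autoImplicit false

namespace Pool.Agent.PowB

open Pool.Agent.PowF Pool.Agent.CycSyl NumberField NumberTheorySymbols Filter Topology

theorem fam_fin (p : ℕ) (H : Type) [CommGroup H] (X : ℝ) :
    {K ∈ fam p H | (aD K : ℝ) ≤ X}.Finite := by
  have h := NumberField.finite_of_discr_bdd ℂ ⌈X⌉₊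
  refine (h.image (fun K => K.1)).subset ?_
  rintro K ⟨hK, hX⟩
  obtain ⟨hn, -⟩ := id hK
  refine ⟨⟨K, hn.to_finiteDimensional⟩, ?_, rfl⟩
  show |@discr K _ _| ≤ _
  rw [aD_eq K] at hX
  have h1 : ((discr K).natAbs : ℝ) ≤ (⌈X⌉₊ : ℝ) := hX.trans (Nat.le_ceil X)
  have h2 : (discr K).natAbs ≤ ⌈X⌉₊ := by exact_mod_cast h1
  have h3 : |discr K| = ((discr K).natAbs : ℤ) := Int.abs_eq_natAbs _
  rw [h3]
  exact_mod_cast h2

theorem tendsto_log_term {a : ℝ} (ha : 0 < a) (A C : ℝ) (hA : 0 < A) (hC : 0 < C) :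
    Tendsto (fun t : ℝ => t ^ (-a) * (1 + A * Real.log t) ^ C) atTop (𝓝 0) := by
  have h1 : Tendsto (fun t : ℝ => Real.log t ^ C / t ^ a) atTop (𝓝 0) :=
    (isLittleO_log_rpow_rpow_atTop C ha).tendsto_div_nhds_zero
  have h2 : Tendsto (fun t : ℝ => (1 + A) ^ C * (Real.log t ^ C / t ^ a)) atTop (𝓝 0) := by
    simpa using h1.const_mul ((1 + A) ^ C)
  refine squeeze_zero' ?_ ?_ h2
  · filter_upwards [eventually_ge_atTop (1 : ℝ)] with t ht
    have := Real.log_nonneg ht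
    positivity
  · filter_upwards [eventually_ge_atTop (Real.exp 1)] with t ht
    have ht0 : 0 < t := (Real.exp_pos 1).trans_le ht
    have hl : 1 ≤ Real.log t := by
      rw [Real.le_log_iff_exp_le ht0]
      exact ht
    have h3 : (1 + A * Real.log t) ^ C ≤ ((1 + A) * Real.log t) ^ C := by
      apply Real.rpow_le_rpow
      · positivity
      · nlinarith
      · exact hC.le
    rw [Real.mul_rpow (by positivity) (by positivity)] at h3
    rw [Real.rpow_neg ht0.le]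
    calc (t ^ a)⁻¹ * (1 + A * Real.log t) ^ C ≤ (t ^ a)⁻¹ * ((1 + A) ^ C * Real.log t ^ C) := by
          gcongr
      _ = _ := by ring

theorem final_B {p v k : ℕ} (hp : p.Prime) (hp2 : p ≠ 2) (H : Type) [CommGroup H] [Finite H]
    (hH : Nat.card H = p ^ v) (hit : ClassHit p k H) (β : ℝ) (hβ : 0 < β)
    (hβ1 : β < 1 / (p ^ k : ℝ)) (hβ2 : β < 1 / 6) (X₀ : ℝ) :
    ∃ X : ℝ, X₀ ≤ X ∧ X ^ β ≤
      (({K ∈ fam p H | (aD K : ℝ) ≤ X} : Set (IntermediateField ℚ ℂ)).ncard : ℝ) := by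
  classical
  by_contra hcon
  push Not at hcon
  obtain ⟨W, M, hW, hM, hsplit⟩ := split_ineq hp H hH hit
  obtain ⟨f, C, hf, hC, hwt⟩ := weights hp hp2 hW
  obtain ⟨C1, hC1, hfs1⟩ := family_sum hβ.le hβ1
  obtain ⟨C2, hC2, hfs2⟩ := family_sum hβ.le (show β < 1 / 2 by linarith)
  set A : ℝ := (1 / (1 - 2 * β) + 1 / (4 * β)) / 2 with hA
  have h12 : (0 : ℝ) < 1 - 2 * β := by linarith
  have h4b : (0 : ℝ) < 4 * β := by linarith
  have hlt : 1 / (1 - 2 * β) < 1 / (4 * β) := by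
    apply one_div_lt_one_div_of_lt h4b
    linarith
  have hA1 : 1 / (1 - 2 * β) < A := by rw [hA]; linarith
  have hA2 : A < 1 / (4 * β) := by rw [hA]; linarith
  have hA0 : 0 < A := (one_div_pos.2 h12).trans hA1
  have ha : 0 < 1 / 4 - A * β := by
    rw [lt_div_iff₀ h4b] at hA2
    linarith
  have hb : 0 < A * (1 / 2 - β) - 1 / 2 := by
    rw [div_lt_iff₀ h12] at hA1
    linarith
  -- the limit
  have hlim : Tendsto (fun t : ℝ => Real.exp C * (t ^ (-(1 / 4 - A * β)) *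
      (1 + A * Real.log t) ^ C) + M * Real.exp C * (C1 * t ^ (-(1 / 2) : ℝ) +
        C2 * t ^ (-(A * (1 / 2 - β) - 1 / 2)))) atTop (𝓝 0) := by
    have e1 := (tendsto_log_term ha A C hA0 hC).const_mul (Real.exp C)
    have e2 := ((tendsto_rpow_neg_atTop (y := (1 / 2 : ℝ)) (by norm_num)).const_mul C1).add
      ((tendsto_rpow_neg_atTop hb).const_mul C2)
    have e3 := e1.add (e2.const_mul (M * Real.exp C))
    simpa using e3
  have hev := ((hlim.eventually (gt_mem_nhds (zero_lt_one))).and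
    ((eventually_ge_atTop (1 : ℝ)).and
      (((tendsto_rpow_atTop hA0).eventually_ge_atTop ((W : ℝ) ^ (p ^ k))).and
        ((tendsto_rpow_atTop hA0).eventually_ge_atTop X₀))))
  obtain ⟨t, ht1, ht2, ht3, ht4⟩ := hev.exists
  set D₀ : ℝ := t ^ A with hD₀
  have ht0 : 0 < t := by linarith
  have hD1 : 1 ≤ D₀ := Real.one_le_rpow ht2 hA0.le
  have hD0 : 0 < D₀ := by linarith
  have hlogt : 0 ≤ Real.log t := Real.log_nonneg ht2
  set σ : ℝ := 1 + 1 / t with hσ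
  have hσ1 : 1 < σ := by
    rw [hσ]
    have : 0 < 1 / t := by positivity
    linarith
  have hσ2 : σ ≤ 2 := by
    rw [hσ]
    have : 1 / t ≤ 1 := by
      rw [div_le_one ht0]
      exact ht2
    linarith
  have hσt : σ - 1 = t⁻¹ := by rw [hσ]; ring
  obtain ⟨P, hP, hlow, hsmall⟩ := hwt σ hσ1 hσ2
  obtain ⟨F, dd, hF, hineq⟩ := hsplit P f σ D₀ hP hf hσ1 hσ2 ht3
  set Pr := ∏ r ∈ P, (1 + f r * (r : ℝ) ^ (-σ)) with hPr
  rw [hσt] at hlow hineq hsmall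
  have hinv : ∀ x : ℝ, (t⁻¹) ^ x = t ^ (-x) := by
    intro x
    rw [Real.inv_rpow ht0.le, Real.rpow_neg ht0.le]
  have hPr0 : 0 < Pr := lt_of_lt_of_le (by positivity) hlow
  -- counting in `F`
  have hcountF : ∀ (F' : Finset (IntermediateField ℚ ℂ)), F' ⊆ F → ∀ X : ℝ, X₀ ≤ X →
      ((F'.filter (fun K => (aD K : ℝ) ≤ X)).card : ℝ) ≤ X ^ β := by
    intro F' hF' X hX
    refine le_trans ?_ (hcon X hX).le
    rw [← Set.ncard_coe_finset]
    apply Nat.cast_le.2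
    apply Set.ncard_le_ncard _ (fam_fin p H X)
    intro K hK
    rw [Finset.mem_coe, Finset.mem_filter] at hK
    exact ⟨(hF K (hF' hK.1)).1, hK.2⟩
  -- small fields
  have hS : ∑ K ∈ F.filter (fun K => (aD K : ℝ) ≤ D₀),
      ∏ r ∈ P.filter (fun r : ℕ => J(-(dd K : ℤ) | r) ≠ -1), (1 + f r * (r : ℝ) ^ (-σ)) ≤
      (Real.exp C * (t ^ (-(1 / 4 - A * β)) * (1 + A * Real.log t) ^ C)) * Pr := by
    have h1 : ∀ K ∈ F.filter (fun K => (aD K : ℝ) ≤ D₀),
        ∏ r ∈ P.filter (fun r : ℕ => J(-(dd K : ℤ) | r) ≠ -1), (1 + f r * (r : ℝ) ^ (-σ)) ≤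
        (Real.exp C * t ^ (-(1 / 4) : ℝ) * (1 + A * Real.log t) ^ C) * Pr := by
      intro K hK
      rw [Finset.mem_filter] at hK
      obtain ⟨hK1, hK2⟩ := hK
      obtain ⟨-, hd0, hpd, hda⟩ := hF K hK1
      refine (hsmall (dd K) hd0 hpd).trans ?_
      rw [hinv]
      have hd1 : (1 : ℝ) ≤ dd K := by exact_mod_cast hd0
      have h2 : Real.log (dd K) ≤ A * Real.log t := by
        rw [← Real.log_rpow ht0]
        apply Real.log_le_log (by linarith)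
        refine le_trans ?_ hK2
        exact_mod_cast hda
      have h3 : 0 ≤ Real.log (dd K) := Real.log_nonneg hd1
      gcongr
    refine (Finset.sum_le_card_nsmul _ _ _ h1).trans ?_
    rw [nsmul_eq_mul]
    have h4 := hcountF F (Finset.Subset.refl F) D₀ ht4
    have h5 : D₀ ^ β = t ^ (A * β) := by rw [hD₀, ← Real.rpow_mul ht0.le]
    rw [h5] at h4
    have h6 : t ^ (A * β) * t ^ (-(1 / 4) : ℝ) = t ^ (-(1 / 4 - A * β)) := by
      rw [← Real.rpow_add ht0]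
      congr 1
      ring
    calc _ ≤ t ^ (A * β) *
          ((Real.exp C * t ^ (-(1 / 4) : ℝ) * (1 + A * Real.log t) ^ C) * Pr) := by
          gcongr
      _ = (Real.exp C * ((t ^ (A * β) * t ^ (-(1 / 4) : ℝ)) * (1 + A * Real.log t) ^ C)) * Pr := by
          ring
      _ = _ := by rw [h6]
  -- large fields
  have hL : ∑ K ∈ F.filter (fun K => ¬ (aD K : ℝ) ≤ D₀),
      ((aD K : ℝ) ^ (-(1 / (p ^ k : ℝ))) + (aD K : ℝ) ^ (-(1 / 2) : ℝ) / t⁻¹) ≤
      C1 + C2 * t ^ (-(A * (1 / 2 - β) - 1)) := by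
    have h1 : ∀ K ∈ F.filter (fun K => ¬ (aD K : ℝ) ≤ D₀), D₀ < (aD K : ℝ) := by
      intro K hK
      exact not_le.1 (Finset.mem_filter.1 hK).2
    have h2 : ∀ X : ℝ, D₀ ≤ X → (((F.filter (fun K => ¬ (aD K : ℝ) ≤ D₀)).filter
        (fun K => (aD K : ℝ) ≤ X)).card : ℝ) ≤ X ^ β := fun X hX =>
      hcountF _ (Finset.filter_subset _ _) X (ht4.trans hX)
    have h3 := hfs1 (F.filter (fun K => ¬ (aD K : ℝ) ≤ D₀)) aD D₀ hD1 h1 h2
    have h4 := hfs2 (F.filter (fun K => ¬ (aD K : ℝ) ≤ D₀)) aD D₀ hD1 h1 h2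
    rw [Finset.sum_add_distrib, ← Finset.sum_div]
    have h5 : D₀ ^ (β - 1 / (p ^ k : ℝ)) ≤ 1 :=
      Real.rpow_le_one_of_one_le_of_nonpos hD1 (by linarith)
    have h6 : D₀ ^ (β - 1 / 2) / t⁻¹ = t ^ (-(A * (1 / 2 - β) - 1)) := by
      rw [hD₀, ← Real.rpow_mul ht0.le, div_inv_eq_mul]
      nth_rewrite 2 [← Real.rpow_one t]
      rw [← Real.rpow_add ht0]
      congr 1
      ring
    have h7 : (∑ K ∈ F.filter (fun K => ¬ (aD K : ℝ) ≤ D₀), (aD K : ℝ) ^ (-(1 / 2) : ℝ)) / t⁻¹ ≤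
        C2 * t ^ (-(A * (1 / 2 - β) - 1)) := by
      rw [← h6, ← mul_div_assoc]
      gcongr
    have h8 : C1 * D₀ ^ (β - 1 / (p ^ k : ℝ)) ≤ C1 := by nlinarith
    linarith
  have hfin : Pr ≤ (Real.exp C * (t ^ (-(1 / 4 - A * β)) * (1 + A * Real.log t) ^ C)) * Pr +
      M * (C1 + C2 * t ^ (-(A * (1 / 2 - β) - 1))) := by
    refine hineq.trans (add_le_add hS ?_)
    gcongr
  -- divide by `Pr`
  have hdiv : M * (C1 + C2 * t ^ (-(A * (1 / 2 - β) - 1))) ≤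
      (M * Real.exp C * (C1 * t ^ (-(1 / 2) : ℝ) + C2 * t ^ (-(A * (1 / 2 - β) - 1 / 2)))) * Pr := by
    have e1 : t ^ (-(A * (1 / 2 - β) - 1)) = t ^ (-(A * (1 / 2 - β) - 1 / 2)) * t ^ (1 / 2 : ℝ) := by
      rw [← Real.rpow_add ht0]
      congr 1
      ring
    have e2 : (1 : ℝ) = t ^ (-(1 / 2) : ℝ) * t ^ (1 / 2 : ℝ) := by
      rw [← Real.rpow_add ht0]
      norm_num
    have e3 : t ^ (1 / 2 : ℝ) ≤ Real.exp C * Pr := by
      rw [hinv, neg_neg] at hlow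
      calc t ^ (1 / 2 : ℝ) = Real.exp C * (Real.exp (-C) * t ^ (1 / 2 : ℝ)) := by
            rw [← mul_assoc, ← Real.exp_add]
            simp
        _ ≤ Real.exp C * Pr := by gcongr
    calc M * (C1 + C2 * t ^ (-(A * (1 / 2 - β) - 1)))
        = M * (C1 * t ^ (-(1 / 2) : ℝ) + C2 * t ^ (-(A * (1 / 2 - β) - 1 / 2))) *
          t ^ (1 / 2 : ℝ) := by
          rw [e1]
          have : C1 = C1 * (t ^ (-(1 / 2) : ℝ) * t ^ (1 / 2 : ℝ)) := by rw [← e2, mul_one]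
          nth_rewrite 1 [this]
          ring
      _ ≤ M * (C1 * t ^ (-(1 / 2) : ℝ) + C2 * t ^ (-(A * (1 / 2 - β) - 1 / 2))) *
          (Real.exp C * Pr) := by gcongr
      _ = _ := by ring
  have hlast : Pr < Pr := by
    calc Pr ≤ _ := hfin
      _ ≤ (Real.exp C * (t ^ (-(1 / 4 - A * β)) * (1 + A * Real.log t) ^ C)) * Pr +
        (M * Real.exp C * (C1 * t ^ (-(1 / 2) : ℝ) + C2 * t ^ (-(A * (1 / 2 - β) - 1 / 2)))) * Pr := by
          gcongr
      _ = (Real.exp C * (t ^ (-(1 / 4 - A * β)) * (1 + A * Real.log t) ^ C) +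
        M * Real.exp C * (C1 * t ^ (-(1 / 2) : ℝ) + C2 * t ^ (-(A * (1 / 2 - β) - 1 / 2)))) * Pr := by
          ring
      _ < 1 * Pr := by gcongr
      _ = Pr := one_mul _
  exact lt_irrefl _ hlast

end Pool.Agent.PowB
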